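import Pool.Agent.H837.SP.Final

/-!
# Elementary properties of homomorphisms to algebraically closed fields
-/

set_option autoImplicit false

namespace Pool.Agent.H837.SP

open Pool.Agent.H837.UF Pool.Agent.H837.QB Cardinal
open Filter hiding map
open Topology (IsConstructible)

/-- Algebraically closed fields of the same uncountable cardinality which contain a ring `R` of smaller
cardinality are isomorphic over `R`. -/
theorem exists_equiv_of_lt {R E L : Type} [CommRing R] [Field E] [Field L] [IsAlgClosed E]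
    [IsAlgClosed L] (hE : ℵ₀ < #E) (hR : #R < #E) (hL : #L = #E) (f : R →+* E) (g : R →+* L)
    (hf : Function.Injective f) (hg : Function.Injective g) :
    ∃ e : E ≃+* L, ∀ x, e (f x) = g x := by
  let _ : Algebra R E := f.toAlgebra
  let _ : Algebra R L := g.toAlgebra
  have : FaithfulSMul R E := (faithfulSMul_iff_algebraMap_injective R E).mpr hf
  have : FaithfulSMul R L := (faithfulSMul_iff_algebraMap_injective R L).mpr hg
  have : Nontrivial R := by
    refine ⟨0, 1, fun h => ?_⟩
    have := congrArg f h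
    rw [map_zero, map_one] at this
    exact zero_ne_one this
  obtain ⟨s, hs⟩ := exists_isTranscendenceBasis R E
  obtain ⟨t, ht⟩ := exists_isTranscendenceBasis R L
  have h1 : #s = #E := by
    apply le_antisymm (mk_set_le s)
    have h2 := IsAlgClosed.cardinal_le_max_transcendence_basis' _ hs
    rcases le_max_iff.mp h2 with h3 | h3
    · rcases le_max_iff.mp h3 with h4 | h4
      · exact absurd h4 (not_le.mpr hR)
      · exact h4
    · exact absurd h3 (not_le.mpr hE)
  have h2 : #t = #L := by
    apply le_antisymm (mk_set_le t)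
    have h2 := IsAlgClosed.cardinal_le_max_transcendence_basis' _ ht
    rcases le_max_iff.mp h2 with h3 | h3
    · rcases le_max_iff.mp h3 with h4 | h4
      · exact absurd h4 (not_le.mpr (by rw [hL]; exact hR))
      · exact h4
    · exact absurd h3 (not_le.mpr (by rw [hL]; exact hE))
  have h3 : #s = #t := by rw [h1, h2, hL]
  obtain ⟨i⟩ := Cardinal.eq.mp h3
  let _ := IsAlgClosed.isAlgClosure_of_transcendence_basis _ hs
  let _ := IsAlgClosed.isAlgClosure_of_transcendence_basis _ ht
  let e : Algebra.adjoin R (Set.range ((↑) : s → E)) ≃ₐ[R]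
      Algebra.adjoin R (Set.range ((↑) : t → L)) :=
    (hs.1.aevalEquiv.symm.trans (MvPolynomial.renameEquiv R i)).trans ht.1.aevalEquiv
  refine ⟨IsAlgClosure.equivOfEquiv E L e.toRingEquiv, fun x => ?_⟩
  have h4 : f x = algebraMap (Algebra.adjoin R (Set.range ((↑) : s → E))) E
      (algebraMap R _ x) := rfl
  rw [h4, IsAlgClosure.equivOfEquiv_algebraMap]
  have h5 : e.toRingEquiv (algebraMap R _ x) = algebraMap R _ x := e.commutes x
  rw [h5]
  rfl

variable {R : Type} [CommRing R]

/-- The property `Q` of homomorphisms from `R` to algebraically closed fields is compatible with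
ultraproducts. -/
def Elementary (Q : ∀ (K : Type) [Field K], (R →+* K) → Prop) : Prop :=
  ∀ (J : Type) (U : Ultrafilter J) (K : J → Type) [∀ j, Field (K j)] [∀ j, IsAlgClosed (K j)]
    (L : Type) [Field L] (π : (∀ j, K j) →+* L), IsUltra U π → ∀ φ : ∀ j, R →+* K j,
      (Q L (π.comp (RingHom.pi φ)) ↔ ∀ᶠ j in U, Q (K j) (φ j))

variable {Q : ∀ (K : Type) [Field K], (R →+* K) → Prop}

/-- An elementary property depends only on the kernel. -/
theorem Elementary.of_ker_eq (hQ : Elementary Q) {K K' : Type} [Field K] [Field K'] [IsAlgClosed K]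
    [IsAlgClosed K'] {φ : R →+* K} {φ' : R →+* K'} (hker : RingHom.ker φ = RingHom.ker φ')
    (h : Q K φ) : Q K' φ' := by
  classical
  let A : Type := (R × K × K') × ℕ
  have hAinf : Infinite A := inferInstanceAs (Infinite ((R × K × K') × ℕ))
  let U : Ultrafilter (Finset A) := Ultrafilter.of atTop
  have hU : ∀ a : A, ∀ᶠ j in (U : Filter (Finset A)), a ∈ j := by
    intro a
    refine Ultrafilter.of_le atTop ?_
    filter_upwards [eventually_ge_atTop ({a} : Finset A)] with j hj
    exact hj (Finset.mem_singleton_self a)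
  have hKA : #K ≤ #A := mk_le_of_injective (f := fun a : K => (((0, a, 0), 0) : (R × K × K') × ℕ))
    fun a b hab => congrArg (fun t : (R × K × K') × ℕ => t.1.2.1) hab
  have hKA' : #K' ≤ #A := mk_le_of_injective (f := fun a : K' => (((0, 0, a), 0) : (R × K × K') × ℕ))
    fun a b hab => congrArg (fun t : (R × K × K') × ℕ => t.1.2.2) hab
  have hRA : #R ≤ #A := mk_le_of_injective (f := fun a : R => (((a, 0, 0), 0) : (R × K × K') × ℕ))
    fun a b hab => congrArg (fun t : (R × K × K') × ℕ => t.1.1) hab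
  have hKinf : Infinite K := IsAlgClosed.instInfinite
  have hKinf' : Infinite K' := IsAlgClosed.instInfinite
  have hc := uprod_card_eq U hU (K := fun _ => K) fun _ => hKA.trans (cantor _).le
  have hc' := uprod_card_eq U hU (K := fun _ => K') fun _ => hKA'.trans (cantor _).le
  have hbig : ℵ₀ < #(UProd (K := fun _ : Finset A => K) U) := by
    rw [hc]
    exact (aleph0_le_mk A).trans_lt (cantor _)
  let q : (∀ _ : Finset A, K) →+* UProd (K := fun _ : Finset A => K) U := Ideal.Quotient.mk _
  let q' : (∀ _ : Finset A, K') →+* UProd (K := fun _ : Finset A => K') U := Ideal.Quotient.mk _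
  have hqker : ∀ a : R, q (RingHom.pi (fun _ : Finset A => φ) a) = 0 ↔ φ a = 0 := by
    intro a
    rw [UF.mk_eq_zero]
    constructor
    · intro h0
      obtain ⟨j, hj⟩ := h0.exists
      exact hj
    · intro h0
      exact Eventually.of_forall fun j => h0
  have hqker' : ∀ a : R, q' (RingHom.pi (fun _ : Finset A => φ') a) = 0 ↔ φ' a = 0 := by
    intro a
    rw [UF.mk_eq_zero]
    constructor
    · intro h0
      obtain ⟨j, hj⟩ := h0.exists
      exact hj
    · intro h0
      exact Eventually.of_forall fun j => h0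
  let f : R →+* UProd (K := fun _ : Finset A => K) U := q.comp (RingHom.pi fun _ => φ)
  let g : R →+* UProd (K := fun _ : Finset A => K') U := q'.comp (RingHom.pi fun _ => φ')
  have hfg : RingHom.ker g = RingHom.ker f := by
    ext a
    rw [RingHom.mem_ker, RingHom.mem_ker]
    show q' (RingHom.pi (fun _ : Finset A => φ') a) = 0 ↔ q (RingHom.pi (fun _ : Finset A => φ) a) = 0
    rw [hqker, hqker', ← RingHom.mem_ker, ← RingHom.mem_ker, hker]
  have hquot : #(R ⧸ RingHom.ker f) < #(UProd (K := fun _ : Finset A => K) U) := by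
    rw [hc]
    exact (mk_le_of_surjective Ideal.Quotient.mk_surjective).trans_lt (hRA.trans_lt (cantor _))
  obtain ⟨e, he⟩ := exists_equiv_of_lt hbig hquot (hc'.trans hc.symm) (RingHom.kerLift f)
    ((RingHom.kerLift g).comp (Ideal.quotEquivOfEq hfg.symm : _ →+* _))
    (RingHom.kerLift_injective f)
    ((RingHom.kerLift_injective g).comp (Ideal.quotEquivOfEq hfg.symm).injective)
  have he' : (e : _ →+* _).comp f = g := by
    ext a
    have h1 := he (Ideal.Quotient.mk _ a)
    have h2 : RingHom.kerLift f (Ideal.Quotient.mk _ a) = f a := RingHom.kerLift_mk f a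
    rw [h2] at h1
    exact h1
  let π : (∀ _ : Finset A, K) →+* UProd (K := fun _ : Finset A => K') U :=
    (e : UProd (K := fun _ : Finset A => K) U →+* UProd (K := fun _ : Finset A => K') U).comp q
  have hπ : IsUltra U π := by
    refine ⟨?_, fun a => ?_⟩
    · rw [RingHom.coe_comp]
      exact e.surjective.comp Ideal.Quotient.mk_surjective
    · show e (q a) = 0 ↔ _
      rw [← UF.mk_eq_zero (K := fun _ : Finset A => K) U a]
      exact e.map_eq_zero_iff
  have hq' : IsUltra U q' := ⟨Ideal.Quotient.mk_surjective, fun a => UF.mk_eq_zero _ a⟩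
  have hcomp : π.comp (RingHom.pi fun _ => φ) = q'.comp (RingHom.pi fun _ => φ') := he'
  have h1 := (hQ _ U (fun _ => K) _ π hπ fun _ => φ).mpr (Eventually.of_forall fun _ => h)
  rw [hcomp] at h1
  obtain ⟨j, hj⟩ := ((hQ _ U (fun _ => K') _ q' hq' fun _ => φ').mp h1).exists
  exact hj

/-- An elementary property of a limit. -/
theorem Elementary.limit (hQ : Elementary Q) {J : Type} (U : Ultrafilter J) {K : J → Type}
    [∀ j, Field (K j)] [∀ j, IsAlgClosed (K j)] (φ : ∀ j, R →+* K j) {L : Type} [Field L]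
    [IsAlgClosed L] {ψ : R →+* L} (hker : ∀ a, ψ a = 0 ↔ ∀ᶠ j in U, φ j a = 0) :
    Q L ψ ↔ ∀ᶠ j in U, Q (K j) (φ j) := by
  let q : (∀ j, K j) →+* UProd (K := K) U := Ideal.Quotient.mk _
  have hq : IsUltra U q := ⟨Ideal.Quotient.mk_surjective, fun a => UF.mk_eq_zero _ a⟩
  have hk : RingHom.ker (q.comp (RingHom.pi φ)) = RingHom.ker ψ := by
    ext a
    rw [RingHom.mem_ker, RingHom.mem_ker, hker, RingHom.comp_apply, UF.mk_eq_zero]
    rfl
  rw [← hQ J U K _ q hq φ]
  exact ⟨hQ.of_ker_eq hk.symm, hQ.of_ker_eq hk⟩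

/-- The set of the points of the spectrum at which the property is true. -/
def Locus (Q : ∀ (K : Type) [Field K], (R →+* K) → Prop) : Set (PrimeSpectrum R) :=
  {p | Q (AlgebraicClosure p.asIdeal.ResidueField) (geo p)}

theorem Elementary.mem_locus (hQ : Elementary Q) {K : Type} [Field K] [IsAlgClosed K]
    {φ : R →+* K} {p : PrimeSpectrum R} (hp : RingHom.ker φ = p.asIdeal) : Q K φ ↔ p ∈ Locus Q := by
  have h1 : RingHom.ker φ = RingHom.ker (geo p) := by rw [hp, ker_geo]
  exact ⟨hQ.of_ker_eq h1, hQ.of_ker_eq h1.symm⟩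

/-- Products of elements outside a prime ideal. -/
theorem exists_index (p : PrimeSpectrum R) : ∃ (J : Type) (U : Ultrafilter J) (g : J → R),
    (∀ j, g j ∉ p.asIdeal) ∧ ∀ a, a ∉ p.asIdeal → ∀ᶠ j in U, a ∣ g j := by
  classical
  refine ⟨Finset {a : R // a ∉ p.asIdeal}, Ultrafilter.of atTop, fun s => ∏ a ∈ s, (a : R),
    fun s hs => ?_, fun a ha => ?_⟩
  · obtain ⟨i, -, hi⟩ := (Ideal.IsPrime.prod_mem_iff).mp hs
    exact i.2 hi
  · refine Ultrafilter.of_le atTop ?_
    filter_upwards [eventually_ge_atTop ({⟨a, ha⟩} : Finset {a : R // a ∉ p.asIdeal})] with s hs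
    exact Finset.dvd_prod_of_mem (fun a : {a : R // a ∉ p.asIdeal} => (a : R))
      (hs (Finset.mem_singleton_self _))

theorem kernel_index {p : PrimeSpectrum R} {J : Type} {U : Ultrafilter J} {g : J → R}
    (hg : ∀ a, a ∉ p.asIdeal → ∀ᶠ j in U, a ∣ g j) {q : J → PrimeSpectrum R}
    (hq : ∀ j, g j ∉ (q j).asIdeal) {a : R} (ha : ∀ᶠ j in U, geo (q j) a = 0) : a ∈ p.asIdeal := by
  by_contra hcon
  obtain ⟨j, hj1, hj2⟩ := (ha.and (hg a hcon)).exists
  rw [geo_eq_zero] at hj1
  exact hq j (Ideal.mem_of_dvd _ hj2 hj1)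

/-- The behaviour of an elementary property near a point, on its closure. -/
theorem Elementary.generic (hQ : Elementary Q) (p : PrimeSpectrum R) :
    (p ∈ Locus Q → ∃ h, h ∉ p.asIdeal ∧ ∀ q : PrimeSpectrum R, p ≤ q → h ∉ q.asIdeal →
      q ∈ Locus Q) ∧
    (p ∉ Locus Q → ∃ h, h ∉ p.asIdeal ∧ ∀ q : PrimeSpectrum R, p ≤ q → h ∉ q.asIdeal →
      q ∉ Locus Q) := by
  obtain ⟨J, U, g, hg1, hg2⟩ := exists_index p
  have key : ∀ (q : J → PrimeSpectrum R), (∀ j, p ≤ q j) → (∀ j, g j ∉ (q j).asIdeal) →
      (p ∈ Locus Q ↔ ∀ᶠ j in U, q j ∈ Locus Q) := by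
    intro q hpq hgq
    refine hQ.limit U (fun j => geo (q j)) (ψ := geo p) fun a => ?_
    rw [geo_eq_zero]
    constructor
    · intro ha
      refine Eventually.of_forall fun j => ?_
      rw [geo_eq_zero]
      exact hpq j ha
    · intro ha
      exact kernel_index hg2 hgq ha
  constructor
  · intro hp
    by_contra hcon
    push Not at hcon
    choose q hpq hgq hq using fun j => hcon (g j) (hg1 j)
    obtain ⟨j, hj⟩ := ((key q hpq hgq).mp hp).exists
    exact hq j hj
  · intro hp
    by_contra hcon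
    push Not at hcon
    choose q hpq hgq hq using fun j => hcon (g j) (hg1 j)
    exact hp ((key q hpq hgq).mpr (Eventually.of_forall hq))

theorem Elementary.isConstructible [IsNoetherianRing R] (hQ : Elementary Q) :
    IsConstructible (Locus Q) := isConstructible_of_generic _ hQ.generic

/-- A point in the closure of the locus is the specialisation of a limit of points of the locus. -/
theorem Elementary.closure (hQ : Elementary Q) {p : PrimeSpectrum R} (hp : p ∈ closure (Locus Q)) :
    ∃ (K : Type) (_ : Field K) (_ : IsAlgClosed K) (φ : R →+* K), (∀ a, φ a = 0 → a ∈ p.asIdeal) ∧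
      Q K φ := by
  obtain ⟨J, U, g, hg1, hg2⟩ := exists_index p
  rw [mem_closure_iff_forall] at hp
  choose q hq hgq using fun j => hp (g j) (hg1 j)
  let q' : (∀ j, AlgebraicClosure (q j).asIdeal.ResidueField) →+*
      UProd (K := fun j => AlgebraicClosure (q j).asIdeal.ResidueField) U := Ideal.Quotient.mk _
  have hq' : IsUltra U q' := ⟨Ideal.Quotient.mk_surjective, fun a => UF.mk_eq_zero _ a⟩
  refine ⟨UProd (K := fun j => AlgebraicClosure (q j).asIdeal.ResidueField) U, inferInstance,
    inferInstance, q'.comp (RingHom.pi fun j => geo (q j)), fun a ha => ?_, ?_⟩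
  · rw [RingHom.comp_apply, UF.mk_eq_zero] at ha
    exact kernel_index hg2 hgq ha
  · exact (hQ J U _ _ q' hq' _).mpr (Eventually.of_forall hq)

theorem Elementary.jacobson (hQ : Elementary Q) [IsJacobsonRing R] (p : PrimeSpectrum R) :
    p ∈ Locus Q ↔ p ∈ _root_.closure {q : PrimeSpectrum R | q.asIdeal.IsMaximal ∧ p ≤ q ∧ q ∈ Locus Q} := by
  rw [mem_closure_iff_forall]
  constructor
  · intro hp g hg
    obtain ⟨g', hg', hq⟩ := (hQ.generic p).1 hp
    have h1 : g * g' ∉ p.asIdeal := fun h2 => (p.isPrime.mem_or_mem h2).elim hg hg'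
    have h2 : p.asIdeal.jacobson = p.asIdeal :=
      (inferInstance : IsJacobsonRing R).out' _ p.isPrime.isRadical
    rw [← h2, Ideal.jacobson, Ideal.mem_sInf] at h1
    push Not at h1
    obtain ⟨m, ⟨hpm, hm⟩, hgm⟩ := h1
    exact ⟨⟨m, hm.isPrime⟩, ⟨hm, hpm, hq _ hpm fun h3 => hgm (m.mul_mem_left _ h3)⟩,
      fun h3 => hgm (m.mul_mem_right _ h3)⟩
  · intro hp
    by_contra hcon
    obtain ⟨g, hg, hq⟩ := (hQ.generic p).2 hcon
    obtain ⟨q, ⟨-, hpq, hqc⟩, hgq⟩ := hp g hg
    exact hq q hpq hgq hqc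

end Pool.Agent.H837.SP
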