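import Pool.Agent.H837.SP.Model
import Pool.Agent.H837.QB.Fam2

/-!
# The complexity of rational equivalences in families over arbitrary rings
-/

set_option autoImplicit false

namespace Pool.Agent.H837.SP

open MvPolynomial Pool.Agent.H837.UF Pool.Agent.H837.QB
open Topology (IsConstructible)

variable {R : Type} [CommRing R] {r n : ℕ}

/-- The least complexity of a rational equivalence between the zero-cycles `∑ [x i]` and `∑ [y i]`
on the geometric fibre over the point `p` of the spectrum of `R` of the projective scheme over `R`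
given by the forms in `S`; it is infinite if they are not rationally equivalent there. -/
noncomputable def complexity (S : Finset (MvPolynomial (Fin (r + 1)) R))
    (x y : Fin n → Fin (r + 1) → R) (p : PrimeSpectrum R) : ℕ∞ :=
  cplx (Cone S (geo p)) (image (geo p) x) (image (geo p) y)

/-- The zero-cycles `∑ [x i]` and `∑ [y i]`, where the `x i` and the `y i` are sections over `R` of the
projective scheme over `R` given by the homogeneous forms in `S`. -/
structure Pair (S : Finset (MvPolynomial (Fin (r + 1)) R)) (x y : Fin n → Fin (r + 1) → R) : Prop where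
  homogeneous : ∀ P ∈ S, ∃ d : ℕ, P.IsHomogeneous d
  left : ∀ i, IsSection S (x i)
  right : ∀ i, IsSection S (y i)

variable {S : Finset (MvPolynomial (Fin (r + 1)) R)} {x y : Fin (n + 1) → Fin (r + 1) → R}

theorem complexity_le (h : Pair S x y) (c : ℕ) (p : PrimeSpectrum R) :
    complexity S x y p ≤ c ↔ p ∈ Level S x y c :=
  cplx_le ⟨_, (h.left 0).mem (geo p)⟩

theorem level_eq (h : Pair S x y) (c : ℕ) : {p | complexity S x y p ≤ c} = Level S x y c :=
  Set.ext fun p => complexity_le h c p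

theorem complexity_eq (h : Pair S x y) {K : Type} [Field K] [IsAlgClosed K] (φ : R →+* K)
    (p : PrimeSpectrum R) (hp : RingHom.ker φ = p.asIdeal) :
    cplx (Cone S φ) (image φ x) (image φ y) = complexity S x y p := by
  have h1 : ∀ c : ℕ, cplx (Cone S φ) (image φ x) (image φ y) ≤ c ↔ complexity S x y p ≤ c := by
    intro c
    rw [complexity_le h, cplx_le ⟨_, (h.left 0).mem φ⟩]
    exact ratEq_iff_level h.homogeneous h.left h.right φ p hp c
  apply le_antisymm
  · by_cases h2 : complexity S x y p = ⊤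
    · rw [h2]
      exact le_top
    · obtain ⟨c, hc⟩ := ENat.ne_top_iff_exists.mp h2
      rw [← hc]
      exact (h1 c).mpr hc.symm.le
  · by_cases h2 : cplx (Cone S φ) (image φ x) (image φ y) = ⊤
    · rw [h2]
      exact le_top
    · obtain ⟨c, hc⟩ := ENat.ne_top_iff_exists.mp h2
      rw [← hc]
      exact (h1 c).mp hc.symm.le

theorem same_iff_complexity (h : Pair S x y) {K : Type} [Field K] [IsAlgClosed K] (φ : R →+* K)
    (p : PrimeSpectrum R) (hp : RingHom.ker φ = p.asIdeal) :
    Same (Cone S φ) (image φ x) (image φ y) ↔ complexity S x y p ≠ ⊤ := by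
  have hinf : Infinite K := IsAlgClosed.instInfinite
  rw [← complexity_eq h φ p hp, cplx_ne_top]
  exact same_iff (cone_ne_zero S φ) (fun i => (h.left i).mem φ) fun i => (h.right i).mem φ

theorem generic (h : Pair S x y) (c : ℕ) (p : PrimeSpectrum R) :
    (p ∈ Level S x y c → ∃ g, g ∉ p.asIdeal ∧ ∀ q : PrimeSpectrum R, p ≤ q → g ∉ q.asIdeal →
      q ∈ Level S x y c) ∧
    (p ∉ Level S x y c → ∃ g, g ∉ p.asIdeal ∧ ∀ q : PrimeSpectrum R, p ≤ q → g ∉ q.asIdeal →
      q ∉ Level S x y c) := by
  obtain ⟨A, _, _, f, S₀, x₀, y₀, -, -, -, hSS, hxx, hyy⟩ := exists_model h.homogeneous h.left h.right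
  have hc : Countable A := countable_of_finiteType
  have h1 := generic_level (S := S₀) (x := x₀) (y := y₀) c (PrimeSpectrum.comap f p)
  rw [level_pull hSS hxx hyy c]
  constructor
  · intro hp
    obtain ⟨g, hg, hq⟩ := h1.1 hp
    exact ⟨f g, hg, fun q hpq hgq => hq _ (fun a ha => hpq ha) hgq⟩
  · intro hp
    obtain ⟨g, hg, hq⟩ := h1.2 hp
    exact ⟨f g, hg, fun q hpq hgq => hq _ (fun a ha => hpq ha) hgq⟩

theorem mem_closure_iff_forall (Z : Set (PrimeSpectrum R)) (p : PrimeSpectrum R) :
    p ∈ closure Z ↔ ∀ g, g ∉ p.asIdeal → ∃ q ∈ Z, g ∉ q.asIdeal := by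
  rw [PrimeSpectrum.isTopologicalBasis_basic_opens.mem_closure_iff]
  constructor
  · intro h g hg
    obtain ⟨q, hq1, hq2⟩ := h _ ⟨g, rfl⟩ hg
    exact ⟨q, hq2, hq1⟩
  · rintro h _ ⟨g, rfl⟩ hg
    obtain ⟨q, hq1, hq2⟩ := h g hg
    exact ⟨q, hq2, hq1⟩

theorem jacobson (h : Pair S x y) [IsJacobsonRing R] (c : ℕ) (p : PrimeSpectrum R) :
    complexity S x y p ≤ c ↔
      p ∈ closure {q : PrimeSpectrum R | q.asIdeal.IsMaximal ∧ p ≤ q ∧ complexity S x y q ≤ c} := by
  rw [mem_closure_iff_forall, complexity_le h]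
  constructor
  · intro hp g hg
    obtain ⟨g', hg', hq⟩ := (generic h c p).1 hp
    have h1 : g * g' ∉ p.asIdeal := fun h2 => (p.isPrime.mem_or_mem h2).elim hg hg'
    have h2 : p.asIdeal.jacobson = p.asIdeal :=
      (inferInstance : IsJacobsonRing R).out' _ p.isPrime.isRadical
    rw [← h2, Ideal.jacobson, Ideal.mem_sInf] at h1
    push Not at h1
    obtain ⟨m, ⟨hpm, hm⟩, hgm⟩ := h1
    refine ⟨⟨m, hm.isPrime⟩, ⟨hm, hpm, ?_⟩, fun h3 => hgm (m.mul_mem_right _ h3)⟩
    rw [complexity_le h]
    exact hq _ hpm fun h3 => hgm (m.mul_mem_left _ h3)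
  · intro hp
    by_contra hcon
    obtain ⟨g, hg, hq⟩ := (generic h c p).2 hcon
    obtain ⟨q, ⟨-, hpq, hqc⟩, hgq⟩ := hp g hg
    exact hq q hpq hgq ((complexity_le h c q).mp hqc)

theorem finite_of_mem {R : Type} [CommRing R] [IsDomain R] [IsNoetherianRing R]
    [Ring.DimensionLEOne R] {g : R} (hg : g ≠ 0) : {p : PrimeSpectrum R | g ∈ p.asIdeal}.Finite := by
  have h1 := Ideal.finite_minimalPrimes_of_isNoetherianRing R (Ideal.span {g})
  refine Set.Finite.of_finite_image (f := PrimeSpectrum.asIdeal) (h1.subset ?_)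
    fun p _ q _ hpq => PrimeSpectrum.ext hpq
  rintro _ ⟨p, hp, rfl⟩
  have hpp : Ideal.span {g} ≤ p.asIdeal := (Ideal.span_singleton_le_iff_mem _).mpr hp
  obtain ⟨m, hm, hmp⟩ := Ideal.exists_minimalPrimes_le hpp
  have hmprime : m.IsPrime := hm.1.1
  have hm0 : m ≠ ⊥ := by
    rintro rfl
    exact hg ((Ideal.span_singleton_le_iff_mem _).mp hm.1.2)
  have hmax : m.IsMaximal := hmprime.isMaximal hm0
  rw [← hmax.eq_of_le p.isPrime.ne_top hmp]
  exact hm

theorem dimension_one [IsDomain R] [IsNoetherianRing R] [Ring.DimensionLEOne R] (h : Pair S x y)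
    (c : ℕ) :
    (complexity S x y ⊥ ≤ c → {p | ¬ complexity S x y p ≤ c}.Finite ∧
      ∀ p, complexity S x y p ≤ (c * (n + c + 2) : ℕ)) ∧
    (¬ complexity S x y ⊥ ≤ c → {p | complexity S x y p ≤ c}.Finite) := by
  have hbot : ∀ p : PrimeSpectrum R, (⊥ : PrimeSpectrum R) ≤ p := fun p => bot_le
  constructor
  · intro h0
    rw [complexity_le h] at h0
    constructor
    · obtain ⟨g, hg, hq⟩ := (generic h c ⊥).1 h0
      refine (finite_of_mem (g := g) fun h1 => hg (by rw [h1]; exact Ideal.zero_mem _)).subset ?_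
      intro p hp
      by_contra hcon
      exact hp ((complexity_le h c p).mpr (hq p (hbot p) hcon))
    · intro p
      rw [complexity_le h]
      refine closure_level h.homogeneous h.left h.right c ?_
      rw [mem_closure_iff_forall]
      intro g hg
      exact ⟨⊥, h0, fun h1 => hg (hbot p h1)⟩
  · intro h0
    rw [complexity_le h] at h0
    obtain ⟨g, hg, hq⟩ := (generic h c ⊥).2 h0
    refine (finite_of_mem (g := g) fun h1 => hg (by rw [h1]; exact Ideal.zero_mem _)).subset ?_
    intro p hp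
    by_contra hcon
    exact hq p (hbot p) hcon ((complexity_le h c p).mp hp)

theorem main (h : Pair S x y) :
    (∀ (K : Type) [Field K] [IsAlgClosed K] (φ : R →+* K) (p : PrimeSpectrum R),
      RingHom.ker φ = p.asIdeal →
        cplx (Cone S φ) (image φ x) (image φ y) = complexity S x y p ∧
        (Same (Cone S φ) (image φ x) (image φ y) ↔ complexity S x y p ≠ ⊤)) ∧
    (∀ c : ℕ, IsConstructible {p | complexity S x y p ≤ c} ∧
      ∀ p ∈ closure {p | complexity S x y p ≤ c}, complexity S x y p ≤ (c * (n + c + 2) : ℕ)) ∧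
    (IsJacobsonRing R → ∀ (c : ℕ) (p : PrimeSpectrum R), complexity S x y p ≤ c ↔
      p ∈ closure {q : PrimeSpectrum R | q.asIdeal.IsMaximal ∧ p ≤ q ∧ complexity S x y q ≤ c}) ∧
    (∀ [IsDomain R] [IsNoetherianRing R] [Ring.DimensionLEOne R] (c : ℕ),
      (complexity S x y ⊥ ≤ c → {p | ¬ complexity S x y p ≤ c}.Finite ∧
        ∀ p, complexity S x y p ≤ (c * (n + c + 2) : ℕ)) ∧
      (¬ complexity S x y ⊥ ≤ c → {p | complexity S x y p ≤ c}.Finite)) := by
  refine ⟨fun K _ _ φ p hp => ⟨complexity_eq h φ p hp, same_iff_complexity h φ p hp⟩,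
    fun c => ⟨?_, fun p hp => ?_⟩, fun hJ c p => jacobson h c p, fun c => dimension_one h c⟩
  · rw [level_eq h]
    exact isConstructible_level h.homogeneous h.left h.right c
  · rw [level_eq h] at hp
    rw [complexity_le h]
    exact closure_level h.homogeneous h.left h.right c hp

end Pool.Agent.H837.SP
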