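import Pool.Agent.H837.UF.Prod
import Pool.Agent.H837.UF.Los2
import Pool.Agent.H837.QB.Defs

/-!
# The complexity of a rational equivalence depends only on a prime ideal
-/

set_option autoImplicit false

namespace Pool.Agent.H837.SP

open Pool.Agent.H837.UF Pool.Agent.H837.QB Cardinal
open Filter hiding map

section Card

variable {A : Type} (U : Ultrafilter (Finset A)) {K : Finset A → Type} [∀ j, Field (K j)]

/-- The cardinality of an ultraproduct over a regular ultrafilter. -/
theorem uprod_card_eq [Infinite A] (hU : ∀ a : A, ∀ᶠ j in (U : Filter (Finset A)), a ∈ j)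
    [∀ j, Infinite (K j)] (hK : ∀ j, #(K j) ≤ 2 ^ #A) : #(UProd (K := K) U) = 2 ^ #A := by
  classical
  apply le_antisymm
  · have h1 : #(UProd (K := K) U) ≤ #(∀ j, K j) := mk_le_of_surjective Ideal.Quotient.mk_surjective
    refine h1.trans ?_
    rw [mk_pi]
    refine (Cardinal.prod_le_prod _ (fun _ => 2 ^ #A) hK).trans ?_
    rw [prod_const, lift_id, lift_id, mk_finset_of_infinite, ← power_mul,
      Cardinal.mul_eq_self (aleph0_le_mk A)]
  · have e : ∀ j : Finset A, Nonempty ((j → Bool) ↪ K j) := fun j => by
      have := Infinite.natEmbedding (K j)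
      exact ⟨(Fintype.equivFin (j → Bool)).toEmbedding.trans (Fin.valEmbedding.trans this)⟩
    let f : (A → Bool) → UProd (K := K) U := fun b =>
      Ideal.Quotient.mk _ fun j => (e j).some fun i : j => b i
    have hf : Function.Injective f := by
      intro b b' hbb
      have h1 : Ideal.Quotient.mk (nullIdeal (K := K) U)
          ((fun j => (e j).some fun i : j => b i) - fun j => (e j).some fun i : j => b' i) = 0 := by
        rw [map_sub, sub_eq_zero]
        exact hbb
      rw [UF.mk_eq_zero] at h1
      funext i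
      obtain ⟨j, hj1, hj2⟩ := (h1.and (hU i)).exists
      have h3 : (e j).some (fun i : j => b i) = (e j).some (fun i : j => b' i) := by
        rw [Pi.sub_apply, sub_eq_zero] at hj1
        exact hj1
      exact congrFun ((e j).some.injective h3) ⟨i, hj2⟩
    have h3 := mk_le_of_injective hf
    simpa using h3

/-- Algebraically closed fields of the same uncountable cardinality which contain a countable
ring `R` are isomorphic over `R`. -/
theorem exists_equiv' {R E L : Type} [CommRing R] [Countable R] [Field E] [Field L] [IsAlgClosed E]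
    [IsAlgClosed L] (hE : ℵ₀ < #E) (hL : #L = #E) (f : R →+* E) (g : R →+* L)
    (hf : Function.Injective f) (hg : Function.Injective g) :
    ∃ e : E ≃+* L, ∀ x, e (f x) = g x := by
  let _ : Algebra R E := f.toAlgebra
  let _ : Algebra R L := g.toAlgebra
  have : FaithfulSMul R E := (faithfulSMul_iff_algebraMap_injective R E).mpr hf
  have : FaithfulSMul R L := (faithfulSMul_iff_algebraMap_injective R L).mpr hg
  have : Nontrivial R := by
    refine ⟨0, 1, fun h => ?_⟩
    have := congrArg f h
    rw [map_zero, map_one] at this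
    exact zero_ne_one this
  obtain ⟨s, hs⟩ := exists_isTranscendenceBasis R E
  obtain ⟨t, ht⟩ := exists_isTranscendenceBasis R L
  have hRc : #R ≤ ℵ₀ := mk_le_aleph0
  have h1 := IsAlgClosed.cardinal_eq_cardinal_transcendence_basis_of_aleph0_lt _ hs hRc hE
  have h2 := IsAlgClosed.cardinal_eq_cardinal_transcendence_basis_of_aleph0_lt _ ht hRc
    (by rw [hL]; exact hE)
  have h3 : #s = #t := by
    have e1 := Cardinal.lift_injective h1
    have e2 := Cardinal.lift_injective h2
    rw [← e1, ← e2, hL]
  obtain ⟨i⟩ := Cardinal.eq.mp h3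
  let _ := IsAlgClosed.isAlgClosure_of_transcendence_basis _ hs
  let _ := IsAlgClosed.isAlgClosure_of_transcendence_basis _ ht
  let e : Algebra.adjoin R (Set.range ((↑) : s → E)) ≃ₐ[R]
      Algebra.adjoin R (Set.range ((↑) : t → L)) :=
    (hs.1.aevalEquiv.symm.trans (MvPolynomial.renameEquiv R i)).trans ht.1.aevalEquiv
  refine ⟨IsAlgClosure.equivOfEquiv E L e.toRingEquiv, fun x => ?_⟩
  have h4 : f x = algebraMap (Algebra.adjoin R (Set.range ((↑) : s → E))) E
      (algebraMap R _ x) := rfl
  rw [h4, IsAlgClosure.equivOfEquiv_algebraMap]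
  have h5 : e.toRingEquiv (algebraMap R _ x) = algebraMap R _ x := e.commutes x
  rw [h5]
  rfl

end Card

variable {R : Type} [CommRing R] {r n : ℕ}

/-- The complexity over an algebraically closed field depends only on the kernel. -/
theorem ratEq_of_ker_eq [Countable R] (S : Finset (MvPolynomial (Fin (r + 1)) R))
    {K K' : Type} [Field K] [Field K'] [IsAlgClosed K] [IsAlgClosed K'] {φ : R →+* K}
    {φ' : R →+* K'} (hker : RingHom.ker φ = RingHom.ker φ') (c : ℕ)
    (x y : Fin n → Fin (r + 1) → R) (h : RatEq (Cone S φ) c (image φ x) (image φ y)) :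
    RatEq (Cone S φ') c (image φ' x) (image φ' y) := by
  classical
  -- the ultrafilter
  let A : Type := (K × K') × ℕ
  have hAinf : Infinite A := inferInstanceAs (Infinite ((K × K') × ℕ))
  let U : Ultrafilter (Finset A) := Ultrafilter.of atTop
  have hU : ∀ a : A, ∀ᶠ j in (U : Filter (Finset A)), a ∈ j := by
    intro a
    refine Ultrafilter.of_le atTop ?_
    filter_upwards [eventually_ge_atTop ({a} : Finset A)] with j hj
    exact hj (Finset.mem_singleton_self a)
  have hKA : #K ≤ #A := mk_le_of_injective (f := fun a : K => (((a, 0), 0) : (K × K') × ℕ)) fun a b hab =>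
    congrArg (fun t : (K × K') × ℕ => t.1.1) hab
  have hKA' : #K' ≤ #A := mk_le_of_injective (f := fun a : K' => (((0, a), 0) : (K × K') × ℕ)) fun a b hab =>
    congrArg (fun t : (K × K') × ℕ => t.1.2) hab
  have hKinf : Infinite K := IsAlgClosed.instInfinite
  have hKinf' : Infinite K' := IsAlgClosed.instInfinite
  have hc := uprod_card_eq U hU (K := fun _ => K) fun _ => hKA.trans (cantor _).le
  have hc' := uprod_card_eq U hU (K := fun _ => K') fun _ => hKA'.trans (cantor _).le
  have hbig : ℵ₀ < #(UProd (K := fun _ : Finset A => K) U) := by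
    rw [hc]
    exact (aleph0_le_mk A).trans_lt (cantor _)
  -- the homomorphisms
  let q : (∀ _ : Finset A, K) →+* UProd (K := fun _ : Finset A => K) U := Ideal.Quotient.mk _
  let q' : (∀ _ : Finset A, K') →+* UProd (K := fun _ : Finset A => K') U := Ideal.Quotient.mk _
  have hqker : ∀ a : R, q (RingHom.pi (fun _ : Finset A => φ) a) = 0 ↔ φ a = 0 := by
    intro a
    rw [UF.mk_eq_zero]
    constructor
    · intro h0
      obtain ⟨j, hj⟩ := h0.exists
      exact hj
    · intro h0
      exact Eventually.of_forall fun j => h0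
  have hqker' : ∀ a : R, q' (RingHom.pi (fun _ : Finset A => φ') a) = 0 ↔ φ' a = 0 := by
    intro a
    rw [UF.mk_eq_zero]
    constructor
    · intro h0
      obtain ⟨j, hj⟩ := h0.exists
      exact hj
    · intro h0
      exact Eventually.of_forall fun j => h0
  let f : R →+* UProd (K := fun _ : Finset A => K) U := q.comp (RingHom.pi fun _ => φ)
  let g : R →+* UProd (K := fun _ : Finset A => K') U := q'.comp (RingHom.pi fun _ => φ')
  have hfg : RingHom.ker g = RingHom.ker f := by
    ext a
    rw [RingHom.mem_ker, RingHom.mem_ker]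
    show q' (RingHom.pi (fun _ : Finset A => φ') a) = 0 ↔ q (RingHom.pi (fun _ : Finset A => φ) a) = 0
    rw [hqker, hqker', ← RingHom.mem_ker, ← RingHom.mem_ker, hker]
  have hcount : Countable (R ⧸ RingHom.ker f) := Ideal.Quotient.mk_surjective.countable
  obtain ⟨e, he⟩ := exists_equiv' hbig (hc'.trans hc.symm) (RingHom.kerLift f)
    ((RingHom.kerLift g).comp (Ideal.quotEquivOfEq hfg.symm : _ →+* _))
    (RingHom.kerLift_injective f)
    ((RingHom.kerLift_injective g).comp (Ideal.quotEquivOfEq hfg.symm).injective)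
  have he' : (e : _ →+* _).comp f = g := by
    ext a
    have h1 := he (Ideal.Quotient.mk _ a)
    have h2 : RingHom.kerLift f (Ideal.Quotient.mk _ a) = f a := RingHom.kerLift_mk f a
    rw [h2] at h1
    exact h1
  -- the theorem of Łoś
  let π : (∀ _ : Finset A, K) →+* UProd (K := fun _ : Finset A => K') U :=
    (e : UProd (K := fun _ : Finset A => K) U →+* UProd (K := fun _ : Finset A => K') U).comp q
  have hπ : IsUltra U π := by
    refine ⟨?_, fun a => ?_⟩
    · rw [RingHom.coe_comp]
      exact e.surjective.comp Ideal.Quotient.mk_surjective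
    · show e (q a) = 0 ↔ _
      rw [← UF.mk_eq_zero (K := fun _ : Finset A => K) U a]
      exact e.map_eq_zero_iff
  have hq' : IsUltra U q' := ⟨Ideal.Quotient.mk_surjective, fun a => UF.mk_eq_zero _ a⟩
  have hcomp : π.comp (RingHom.pi fun _ => φ) = q'.comp (RingHom.pi fun _ => φ') := he'
  have h1 := (ratEq_iff hπ (cone_lim hπ S (RingHom.pi fun _ => φ)) c
    (fun i a => (RingHom.pi fun _ : Finset A => φ) (x i a))
    fun i a => (RingHom.pi fun _ : Finset A => φ) (y i a)).mpr (Eventually.of_forall fun _ => h)
  have h2 := ratEq_iff hq' (cone_lim hq' S (RingHom.pi fun _ => φ')) c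
    (fun i a => (RingHom.pi fun _ : Finset A => φ') (x i a))
    fun i a => (RingHom.pi fun _ : Finset A => φ') (y i a)
  rw [hcomp] at h1
  have e1 : (fun i b => π ((RingHom.pi fun _ : Finset A => φ) (x i b))) =
      fun i b => q' ((RingHom.pi fun _ : Finset A => φ') (x i b)) :=
    funext fun i => funext fun b => RingHom.congr_fun hcomp (x i b)
  have e2 : (fun i b => π ((RingHom.pi fun _ : Finset A => φ) (y i b))) =
      fun i b => q' ((RingHom.pi fun _ : Finset A => φ') (y i b)) :=
    funext fun i => funext fun b => RingHom.congr_fun hcomp (y i b)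
  rw [e1, e2] at h1
  obtain ⟨j, hj⟩ := (h2.mp h1).exists
  exact hj

/-- The limit of homomorphisms to algebraically closed fields. -/
theorem ratEq_limit [Countable R] (S : Finset (MvPolynomial (Fin (r + 1)) R)) {J : Type}
    (U : Ultrafilter J) {K : J → Type} [∀ j, Field (K j)] [∀ j, IsAlgClosed (K j)]
    (φ : ∀ j, R →+* K j) {L : Type} [Field L] [IsAlgClosed L] {ψ : R →+* L}
    (hker : ∀ a, ψ a = 0 ↔ ∀ᶠ j in U, φ j a = 0) (c : ℕ) (x y : Fin n → Fin (r + 1) → R) :
    RatEq (Cone S ψ) c (image ψ x) (image ψ y) ↔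
      ∀ᶠ j in U, RatEq (Cone S (φ j)) c (image (φ j) x) (image (φ j) y) := by
  let q : (∀ j, K j) →+* UProd (K := K) U := Ideal.Quotient.mk _
  have hq : IsUltra U q := ⟨Ideal.Quotient.mk_surjective, fun a => UF.mk_eq_zero _ a⟩
  have hk : RingHom.ker (q.comp (RingHom.pi φ)) = RingHom.ker ψ := by
    ext a
    rw [RingHom.mem_ker, RingHom.mem_ker, hker, RingHom.comp_apply, UF.mk_eq_zero]
    rfl
  have h1 := ratEq_iff hq (cone_lim hq S (RingHom.pi φ)) c
    (fun i a => (RingHom.pi φ) (x i a)) fun i a => (RingHom.pi φ) (y i a)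
  have h2 : RatEq (Cone S ψ) c (image ψ x) (image ψ y) ↔
      RatEq (Cone S (q.comp (RingHom.pi φ))) c (image (q.comp (RingHom.pi φ)) x)
        (image (q.comp (RingHom.pi φ)) y) :=
    ⟨ratEq_of_ker_eq S hk.symm c x y, ratEq_of_ker_eq S hk c x y⟩
  rw [h2]
  exact h1

end Pool.Agent.H837.SP
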