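import Pool.Agent.H837.SP.Place
import Pool.Agent.H837.QB.Main

/-!
# The complexity as a function on the spectrum of a ring
-/

set_option autoImplicit false

namespace Pool.Agent.H837.SP

open MvPolynomial Pool.Agent.H837.UF Pool.Agent.H837.QB
open Filter hiding map
open Topology (IsConstructible)

variable {R : Type} [CommRing R] {r n : ℕ}

/-- The homomorphism from `R` to an algebraic closure of the residue field of the prime ideal `p`. -/
noncomputable def geo (p : PrimeSpectrum R) : R →+* AlgebraicClosure p.asIdeal.ResidueField :=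
  (algebraMap p.asIdeal.ResidueField (AlgebraicClosure p.asIdeal.ResidueField)).comp
    (algebraMap R p.asIdeal.ResidueField)

/-- The elements `v a` of `R` are homogeneous coordinates of a section over `R` of the projective
scheme over `R` given by the forms in `S`. -/
def IsSection (S : Finset (MvPolynomial (Fin (r + 1)) R)) (v : Fin (r + 1) → R) : Prop :=
  Ideal.span (Set.range v) = ⊤ ∧ ∀ P ∈ S, eval v P = 0

/-- The set of the points `p` of the spectrum of `R` such that the zero-cycles `∑ [x i]` and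
`∑ [y i]` are rationally equivalent, with complexity at most `c`, on the geometric fibre over `p` of
the projective scheme over `R` given by the forms in `S`. -/
def Level (S : Finset (MvPolynomial (Fin (r + 1)) R)) (x y : Fin n → Fin (r + 1) → R) (c : ℕ) :
    Set (PrimeSpectrum R) :=
  {p | RatEq (Cone S (geo p)) c (image (geo p) x) (image (geo p) y)}

theorem geo_eq_zero (p : PrimeSpectrum R) (a : R) : geo p a = 0 ↔ a ∈ p.asIdeal := by
  rw [geo, RingHom.comp_apply, map_eq_zero, Ideal.algebraMap_residueField_eq_zero]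

theorem IsSection.mem {S : Finset (MvPolynomial (Fin (r + 1)) R)} {v : Fin (r + 1) → R}
    (h : IsSection S v) {K : Type} [Field K] (φ : R →+* K) : (fun a => φ (v a)) ∈ Cone S φ := by
  refine ⟨fun h0 => ?_, fun P hP => ?_⟩
  · have h1 : Ideal.span (Set.range v) ≤ RingHom.ker φ := by
      rw [Ideal.span_le]
      rintro _ ⟨a, rfl⟩
      exact congrFun h0 a
    rw [h.1, top_le_iff] at h1
    exact RingHom.ker_ne_top φ h1
  · rw [eval_map]
    have h1 := congrArg φ (h.2 P hP)
    rw [map_zero] at h1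
    rw [← h1]
    exact (eval₂_comp φ v P).symm

/-- A sequence of elements outside a prime ideal of a countable ring which are divisible by more and
more elements. -/
theorem exists_seq [Countable R] (p : Ideal R) [hp : p.IsPrime] : ∃ g : ℕ → R, (∀ j, g j ∉ p) ∧
    ∀ a, a ∉ p → ∀ᶠ j in atTop, a ∣ g j := by
  have hne : Nonempty {a : R // a ∉ p} := ⟨1, fun h => hp.ne_top ((Ideal.eq_top_iff_one p).mpr h)⟩
  obtain ⟨h, hh⟩ := exists_surjective_nat {a : R // a ∉ p}
  refine ⟨fun j => ∏ i ∈ Finset.range j, (h i : R), fun j => ?_, fun a ha => ?_⟩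
  · intro hj
    obtain ⟨i, -, hi⟩ := (Ideal.IsPrime.prod_mem_iff).mp hj
    exact (h i).2 hi
  · obtain ⟨i, hi⟩ := hh ⟨a, ha⟩
    filter_upwards [eventually_gt_atTop i] with j hj
    have h1 : (h i : R) = a := by rw [hi]
    rw [← h1]
    exact Finset.dvd_prod_of_mem _ (Finset.mem_range.mpr hj)

/-- The kernel of the homomorphism to the ultraproduct. -/
theorem kernel_seq [Countable R] (p : Ideal R) {g : ℕ → R} (hg : ∀ a, a ∉ p → ∀ᶠ j in atTop, a ∣ g j)
    {q : ℕ → PrimeSpectrum R} (hq : ∀ j, g j ∉ (q j).asIdeal) {a : R}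
    (ha : ∀ᶠ j in (hyperfilter ℕ : Filter ℕ), geo (q j) a = 0) : a ∈ p := by
  by_contra hcon
  have h1 := Nat.hyperfilter_le_atTop (hg a hcon)
  obtain ⟨j, hj1, hj2⟩ := (ha.and h1).exists
  rw [geo_eq_zero] at hj1
  exact hq j (Ideal.mem_of_dvd _ hj2 hj1)

variable {S : Finset (MvPolynomial (Fin (r + 1)) R)} {x y : Fin (n + 1) → Fin (r + 1) → R}

theorem closure_level_countable [Countable R] (hS : ∀ P ∈ S, ∃ d : ℕ, P.IsHomogeneous d)
    (hx : ∀ i, IsSection S (x i)) (hy : ∀ i, IsSection S (y i)) (c : ℕ) :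
    closure (Level S x y c) ⊆ Level S x y (c * (n + c + 2)) := by
  intro p hp
  obtain ⟨g, hg1, hg2⟩ := exists_seq p.asIdeal
  have h1 : ∀ j, ∃ q ∈ Level S x y c, g j ∉ q.asIdeal := by
    intro j
    rw [PrimeSpectrum.isTopologicalBasis_basic_opens.mem_closure_iff] at hp
    obtain ⟨q, hq1, hq2⟩ := hp _ ⟨g j, rfl⟩ (hg1 j)
    exact ⟨q, hq2, hq1⟩
  choose q hq hgq using h1
  let ψ : R →+* UProd (K := fun j => AlgebraicClosure (q j).asIdeal.ResidueField)
    (hyperfilter ℕ) := (Ideal.Quotient.mk _).comp (RingHom.pi fun j => geo (q j))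
  have hker : ∀ a, ψ a = 0 ↔ ∀ᶠ j in (hyperfilter ℕ : Filter ℕ), geo (q j) a = 0 := fun a =>
    UF.mk_eq_zero (K := fun j => AlgebraicClosure (q j).asIdeal.ResidueField) (hyperfilter ℕ)
      (RingHom.pi (fun j => geo (q j)) a)
  have h2 : RatEq (Cone S ψ) c (image ψ x) (image ψ y) :=
    (ratEq_limit S (hyperfilter ℕ) (fun j => geo (q j)) hker c x y).mpr
      (Eventually.of_forall fun j => hq j)
  have h3 := ratEq_specialise hS (φ := ψ) (ψ := geo p) (fun a ha => by
    rw [geo_eq_zero]
    exact kernel_seq p.asIdeal hg2 hgq ((hker a).mp ha)) (x := x) (y := y)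
    (fun i => ((hx i).mem (geo p)).1) (fun i => ((hy i).mem (geo p)).1)
    (fun i => (hy i).mem ψ) h2
  have h4 : c * (n + c + 2) = c * (n + 1 + c + 1) := by ring
  rw [h4]
  exact h3

theorem generic_level [Countable R] (c : ℕ) (p : PrimeSpectrum R) :
    (p ∈ Level S x y c → ∃ h, h ∉ p.asIdeal ∧ ∀ q : PrimeSpectrum R, p ≤ q → h ∉ q.asIdeal →
      q ∈ Level S x y c) ∧
    (p ∉ Level S x y c → ∃ h, h ∉ p.asIdeal ∧ ∀ q : PrimeSpectrum R, p ≤ q → h ∉ q.asIdeal →
      q ∉ Level S x y c) := by
  obtain ⟨g, hg1, hg2⟩ := exists_seq p.asIdeal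
  have key : ∀ (q : ℕ → PrimeSpectrum R), (∀ j, p ≤ q j) → (∀ j, g j ∉ (q j).asIdeal) →
      (p ∈ Level S x y c ↔ ∀ᶠ j in (hyperfilter ℕ : Filter ℕ), q j ∈ Level S x y c) := by
    intro q hpq hgq
    refine ratEq_limit S (hyperfilter ℕ) (fun j => geo (q j)) (ψ := geo p) (fun a => ?_) c x y
    rw [geo_eq_zero]
    constructor
    · intro ha
      refine Eventually.of_forall fun j => ?_
      rw [geo_eq_zero]
      exact hpq j ha
    · intro ha
      exact kernel_seq p.asIdeal hg2 hgq ha
  constructor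
  · intro hp
    by_contra hcon
    push Not at hcon
    choose q hpq hgq hq using fun j => hcon (g j) (hg1 j)
    have h1 := (key q hpq hgq).mp hp
    obtain ⟨j, hj⟩ := h1.exists
    exact hq j hj
  · intro hp
    by_contra hcon
    push Not at hcon
    choose q hpq hgq hq using fun j => hcon (g j) (hg1 j)
    exact hp ((key q hpq hgq).mpr (Eventually.of_forall hq))

/-- A criterion for constructible sets of a noetherian ring. -/
theorem isConstructible_of_generic {A : Type} [CommRing A] [IsNoetherianRing A]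
    (Z : Set (PrimeSpectrum A))
    (hZ : ∀ p : PrimeSpectrum A,
      (p ∈ Z → ∃ h, h ∉ p.asIdeal ∧ ∀ q : PrimeSpectrum A, p ≤ q → h ∉ q.asIdeal → q ∈ Z) ∧
      (p ∉ Z → ∃ h, h ∉ p.asIdeal ∧ ∀ q : PrimeSpectrum A, p ≤ q → h ∉ q.asIdeal → q ∉ Z)) :
    IsConstructible Z := by
  have hclosed : ∀ s : Set A, IsConstructible (PrimeSpectrum.zeroLocus s) := by
    intro s
    have h1 : IsOpen (PrimeSpectrum.zeroLocus s)ᶜ := (PrimeSpectrum.isClosed_zeroLocus s).isOpen_compl
    rw [← Topology.isConstructible_compl]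
    exact (TopologicalSpace.NoetherianSpace.isCompact _).isConstructible h1
  have key : ∀ I : Ideal A, IsConstructible (Z ∩ PrimeSpectrum.zeroLocus (I : Set A)) := by
    intro I
    refine IsNoetherian.induction (R := A) (M := A)
      (P := fun I : Ideal A => IsConstructible (Z ∩ PrimeSpectrum.zeroLocus (I : Set A))) ?_ I
    intro (I : Ideal A) ih
    by_cases htop : I = ⊤
    · rw [htop]
      have h1 : PrimeSpectrum.zeroLocus ((⊤ : Ideal A) : Set A) = ∅ := by
        rw [PrimeSpectrum.zeroLocus_empty_iff_eq_top]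
      rw [h1, Set.inter_empty]
      exact IsConstructible.empty
    by_cases hprime : I.IsPrime
    · let p : PrimeSpectrum A := ⟨I, hprime⟩
      have hsplit : ∀ h : A, h ∉ I → PrimeSpectrum.zeroLocus (I : Set A) =
          {q : PrimeSpectrum A | p ≤ q ∧ h ∉ q.asIdeal} ∪
            PrimeSpectrum.zeroLocus ((I ⊔ Ideal.span {h} : Ideal A) : Set A) := by
        intro h _
        ext q
        rw [Set.mem_union, PrimeSpectrum.mem_zeroLocus, PrimeSpectrum.mem_zeroLocus,
          SetLike.coe_subset_coe, SetLike.coe_subset_coe, sup_le_iff, Ideal.span_singleton_le_iff_mem]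
        show I ≤ q.asIdeal ↔ (I ≤ q.asIdeal ∧ h ∉ q.asIdeal) ∨ (I ≤ q.asIdeal ∧ h ∈ q.asIdeal)
        tauto
      have hbig : ∀ h : A, h ∉ I → I < I ⊔ Ideal.span {h} := by
        intro h hh
        refine lt_of_le_of_ne le_sup_left fun heq => hh ?_
        rw [heq]
        exact Ideal.mem_sup_right (Ideal.mem_span_singleton_self h)
      have hcons : ∀ h : A, IsConstructible {q : PrimeSpectrum A | p ≤ q ∧ h ∉ q.asIdeal} := by
        intro h
        have h1 : {q : PrimeSpectrum A | p ≤ q ∧ h ∉ q.asIdeal} =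
            PrimeSpectrum.zeroLocus (I : Set A) ∩ (PrimeSpectrum.zeroLocus ({h} : Set A))ᶜ := by
          ext q
          rw [Set.mem_inter_iff, PrimeSpectrum.mem_zeroLocus, Set.mem_compl_iff,
            PrimeSpectrum.mem_zeroLocus, SetLike.coe_subset_coe, Set.singleton_subset_iff]
          rfl
        rw [h1]
        exact (hclosed _).inter (hclosed _).compl
      by_cases hp : p ∈ Z
      · obtain ⟨h, hh, hq⟩ := (hZ p).1 hp
        have h1 : Z ∩ PrimeSpectrum.zeroLocus (I : Set A) =
            {q : PrimeSpectrum A | p ≤ q ∧ h ∉ q.asIdeal} ∪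
              (Z ∩ PrimeSpectrum.zeroLocus ((I ⊔ Ideal.span {h} : Ideal A) : Set A)) := by
          rw [hsplit h hh, Set.inter_union_distrib_left]
          rw [Set.inter_eq_right.mpr fun q hq' => hq q hq'.1 hq'.2]
        rw [h1]
        exact (hcons h).union (ih _ (hbig h hh))
      · obtain ⟨h, hh, hq⟩ := (hZ p).2 hp
        have h1 : Z ∩ PrimeSpectrum.zeroLocus (I : Set A) =
            Z ∩ PrimeSpectrum.zeroLocus ((I ⊔ Ideal.span {h} : Ideal A) : Set A) := by
          rw [hsplit h hh, Set.inter_union_distrib_left]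
          have h2 : Z ∩ {q : PrimeSpectrum A | p ≤ q ∧ h ∉ q.asIdeal} = ∅ := by
            rw [Set.eq_empty_iff_forall_notMem]
            rintro q ⟨hq1, hq2, hq3⟩
            exact hq q hq2 hq3 hq1
          rw [h2, Set.empty_union]
        rw [h1]
        exact ih _ (hbig h hh)
    · rw [Ideal.isPrime_iff] at hprime
      push Not at hprime
      obtain ⟨a, b, hab, ha, hb⟩ := hprime htop
      have h1 : PrimeSpectrum.zeroLocus (I : Set A) =
          PrimeSpectrum.zeroLocus ((I ⊔ Ideal.span {a} : Ideal A) : Set A) ∪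
            PrimeSpectrum.zeroLocus ((I ⊔ Ideal.span {b} : Ideal A) : Set A) := by
        ext q
        rw [Set.mem_union, PrimeSpectrum.mem_zeroLocus, PrimeSpectrum.mem_zeroLocus,
          PrimeSpectrum.mem_zeroLocus, SetLike.coe_subset_coe, SetLike.coe_subset_coe,
          SetLike.coe_subset_coe, sup_le_iff, sup_le_iff, Ideal.span_singleton_le_iff_mem,
          Ideal.span_singleton_le_iff_mem]
        constructor
        · intro hI
          rcases q.isPrime.mem_or_mem (hI hab) with h2 | h2
          · exact Or.inl ⟨hI, h2⟩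
          · exact Or.inr ⟨hI, h2⟩
        · rintro (h2 | h2)
          · exact h2.1
          · exact h2.1
      have hbig : ∀ h : A, h ∉ I → I < I ⊔ Ideal.span {h} := by
        intro h hh
        refine lt_of_le_of_ne le_sup_left fun heq => hh ?_
        rw [heq]
        exact Ideal.mem_sup_right (Ideal.mem_span_singleton_self h)
      rw [h1, Set.inter_union_distrib_left]
      exact (ih _ (hbig a ha)).union (ih _ (hbig b hb))
  have h1 := key ⊥
  have h2 : PrimeSpectrum.zeroLocus ((⊥ : Ideal A) : Set A) = Set.univ := PrimeSpectrum.zeroLocus_bot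
  rw [h2, Set.inter_univ] at h1
  exact h1

end Pool.Agent.H837.SP
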