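import Pool.Agent.H837.SP.MovesEl

/-!
# Lifting points on hypersurfaces
-/

set_option autoImplicit false

namespace Pool.Agent.H837.SP

open MvPolynomial Pool.Agent.H837.UF Pool.Agent.H837.QB

theorem prod_le {K Γ : Type} [Field K] [LinearOrderedCommGroupWithZero Γ] (v : Valuation K Γ)
    {t : K} (ht : v t ≤ 1) (s : Multiset K) (hs : ∀ α ∈ s, 1 ≤ v α) :
    v (s.map fun α => t - α).prod ≤ v (s.map fun α => 0 - α).prod := by
  induction s using Multiset.induction_on with
  | empty => simp
  | cons a s ih =>
    rw [Multiset.map_cons, Multiset.map_cons, Multiset.prod_cons, Multiset.prod_cons, map_mul, map_mul]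
    have h1 : v (t - a) ≤ v (0 - a) := by
      rw [zero_sub, Valuation.map_neg]
      refine (Valuation.map_sub v t a).trans (max_le ?_ le_rfl)
      exact ht.trans (hs a (Multiset.mem_cons_self a s))
    exact mul_le_mul' h1 (ih fun α hα => hs α (Multiset.mem_cons_of_mem hα))

/-- A small root. -/
theorem exists_small_root {K Γ : Type} [Field K] [IsAlgClosed K] [LinearOrderedCommGroupWithZero Γ]
    (v : Valuation K Γ) (F : Polynomial K) (h1 : v (F.eval 1) = 1) (h0 : v (F.eval 0) < 1) :
    ∃ α : K, F.eval α = 0 ∧ v α < 1 := by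
  by_contra hcon
  push Not at hcon
  have hF : F ≠ 0 := by
    rintro rfl
    rw [Polynomial.eval_zero, map_zero] at h1
    exact zero_ne_one h1
  have hev : ∀ x : K, F.eval x = F.leadingCoeff * (F.roots.map fun α => x - α).prod := fun x =>
    (IsAlgClosed.splits F).eval_eq_prod_roots x
  have h2 := prod_le v (t := 1) (by rw [map_one]) F.roots (fun α hα =>
    hcon α ((Polynomial.mem_roots hF).mp hα))
  have h3 : v (F.eval 1) ≤ v (F.eval 0) := by
    rw [hev 1, hev 0, map_mul, map_mul]
    exact mul_le_mul_right h2 _
  rw [h1] at h3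
  exact absurd h0 (not_lt.mpr h3)

variable {R : Type} [CommRing R] {r : ℕ}

/-- The points of the special fibres of a family of hypersurfaces lift. -/
theorem lifts_hypersurface {P : MvPolynomial (Fin (r + 1)) R}
    (hP : Ideal.span (P.coeffs : Set R) = ⊤) : LiftsPoints ({P} : Finset _) := by
  intro K _ _ O φ v hv
  have := residue_isAlgClosed O
  have : Infinite (IsLocalRing.ResidueField O) := IsAlgClosed.instInfinite
  have hinj : Function.Injective (algebraMap O K) := Subtype.coe_injective
  have hne : map ((IsLocalRing.residue O).comp φ) P ≠ 0 := by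
    intro h0
    have h1 : Ideal.span (P.coeffs : Set R) ≤ RingHom.ker ((IsLocalRing.residue O).comp φ) := by
      rw [Ideal.span_le]
      intro a ha
      obtain ⟨m, hm, rfl⟩ := (MvPolynomial.mem_coeffs_iff).mp ha
      have h2 := congrArg (coeff m) h0
      rw [coeff_map, coeff_zero] at h2
      exact h2
    rw [hP, top_le_iff] at h1
    exact RingHom.ker_ne_top _ h1
  obtain ⟨w, hw⟩ : ∃ w : Fin (r + 1) → IsLocalRing.ResidueField O,
      eval w (map ((IsLocalRing.residue O).comp φ) P) ≠ 0 := by
    by_contra hcon
    push Not at hcon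
    exact hne (MvPolynomial.funext fun w => by rw [hcon w, map_zero])
  choose v₀ hv₀ using fun a => IsLocalRing.residue_surjective (v a)
  choose w₀ hw₀ using fun a => IsLocalRing.residue_surjective (w a)
  have heval : ∀ u : Fin (r + 1) → O, IsLocalRing.residue O (eval u (map φ P)) =
      eval (fun a => IsLocalRing.residue O (u a)) (map ((IsLocalRing.residue O).comp φ) P) := by
    intro u
    rw [← MvPolynomial.map_map, eval_map (IsLocalRing.residue O)]
    exact eval₂_comp (IsLocalRing.residue O) u (map φ P)
  have hevalK : ∀ u : Fin (r + 1) → O, algebraMap O K (eval u (map φ P)) =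
      eval (fun a => algebraMap O K (u a)) (map (algebraMap O K) (map φ P)) := by
    intro u
    rw [eval_map (algebraMap O K)]
    exact eval₂_comp (algebraMap O K) u (map φ P)
  set F : Polynomial K := MvPolynomial.aeval
    (fun a => Polynomial.C (algebraMap O K (v₀ a)) +
      Polynomial.X * Polynomial.C (algebraMap O K (w₀ a - v₀ a)))
    (map (algebraMap O K) (map φ P)) with hF
  have hFe : ∀ s : K, F.eval s = eval (fun a => algebraMap O K (v₀ a) +
      s * algebraMap O K (w₀ a - v₀ a)) (map (algebraMap O K) (map φ P)) := by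
    intro s
    have h1 : (Polynomial.evalRingHom s).comp (MvPolynomial.aeval
        (fun a => Polynomial.C (algebraMap O K (v₀ a)) +
          Polynomial.X * Polynomial.C (algebraMap O K (w₀ a - v₀ a))) :
          MvPolynomial (Fin (r + 1)) K →ₐ[K] Polynomial K).toRingHom =
        MvPolynomial.eval (fun a => algebraMap O K (v₀ a) + s * algebraMap O K (w₀ a - v₀ a)) := by
      refine MvPolynomial.ringHom_ext (fun a => ?_) (fun a => ?_)
      · simp
      · simp
    exact RingHom.congr_fun h1 _
  have hFO : ∀ s : O, F.eval (algebraMap O K s) =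
      algebraMap O K (eval (fun a => v₀ a + s * (w₀ a - v₀ a)) (map φ P)) := by
    intro s
    rw [hFe, hevalK]
    congr 1
  have h1 : O.valuation (F.eval 1) = 1 := by
    have h2 := hFO 1
    rw [(algebraMap O K).map_one] at h2
    rw [h2]
    have h3 : (fun a => v₀ a + 1 * (w₀ a - v₀ a)) = w₀ := by
      funext a
      ring
    rw [h3]
    have h4 : IsUnit (eval w₀ (map φ P)) := by
      by_contra hcon
      have h5 := (IsLocalRing.residue_eq_zero_iff _).mpr
        ((IsLocalRing.mem_maximalIdeal _).mpr hcon)
      rw [heval] at h5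
      have h6 : (fun a => IsLocalRing.residue O (w₀ a)) = w := _root_.funext hw₀
      rw [h6] at h5
      exact hw h5
    exact (ValuationSubring.valuation_eq_one_iff O _).mp h4
  have h0 : O.valuation (F.eval 0) < 1 := by
    have h2 := hFO 0
    rw [(algebraMap O K).map_zero] at h2
    rw [h2]
    have h3 : (fun a => v₀ a + 0 * (w₀ a - v₀ a)) = v₀ := by
      funext a
      ring
    rw [h3]
    refine (theta_eq_zero O (IsLocalRing.residue O) IsLocalRing.residue_surjective _).mp ?_
    rw [heval]
    have h6 : (fun a => IsLocalRing.residue O (v₀ a)) = v := _root_.funext hv₀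
    rw [h6]
    exact hv.2 P (Finset.mem_singleton_self P)
  obtain ⟨α, hα0, hα1⟩ := exists_small_root O.valuation F h1 h0
  have hαO : α ∈ O := (O.valuation_le_one_iff α).mp hα1.le
  refine ⟨fun a => v₀ a + ⟨α, hαO⟩ * (w₀ a - v₀ a), fun a => ?_, fun Q hQ => ?_⟩
  · have h2 : IsLocalRing.residue O ⟨α, hαO⟩ = 0 :=
      (theta_eq_zero O (IsLocalRing.residue O) IsLocalRing.residue_surjective _).mpr hα1
    rw [map_add, map_mul, h2, zero_mul, add_zero, hv₀]
  · rw [Finset.mem_singleton] at hQ
    subst hQ
    apply hinj
    rw [← hFO, (algebraMap O K).map_zero]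
    exact hα0

end Pool.Agent.H837.SP
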