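import Pool.Agent.H837.SP.Special

/-!
# Specialisation of rational equivalences over a valuation ring, with explicit complexity
-/

set_option autoImplicit false

namespace Pool.Agent.H837.SP

open MvPolynomial Pool.Agent.H837.UF Pool.Agent.H837.QB
open Pool.Agent.Y148.OD (Step)
open Pool.Agent.Y809.OD (Inv step_aux)

/-- An interior vertex of the Newton polygon. -/
theorem vertex_aux {K Γ : Type} [Field K] [IsAlgClosed K] [LinearOrderedCommGroupWithZero Γ]
    (v : Valuation K Γ) (w : ℕ → Γ) {j j' : ℕ} (hI : Inv v w j) (hj0 : j ≠ 0)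
    (hS : Step v w j j') : ∃ c : K, c ≠ 0 ∧ ∀ i, i ≠ j → v c ^ i * w i < v c ^ j * w j := by
  obtain ⟨hwj, h0 | ⟨c0, hc0, hl, hr⟩⟩ := hI
  · exact absurd h0 hj0
  obtain ⟨-, c, hc, -, -, hle, hlt⟩ := hS
  obtain ⟨c1, hc1⟩ := IsAlgClosed.exists_pow_nat_eq (c0 * c) (n := 2) (by norm_num)
  have hc10 : c1 ≠ 0 := by
    rintro rfl
    rw [zero_pow (by norm_num)] at hc1
    exact mul_ne_zero hc0 hc hc1.symm
  have hsq : ∀ i, (v c1 ^ i * w i) ^ 2 = (v c0 ^ i * w i) * (v c ^ i * w i) := by
    intro i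
    have h1 : (v c1) ^ 2 = v c0 * v c := by rw [← map_pow, hc1, map_mul]
    rw [mul_pow, ← pow_mul, mul_comm i 2, pow_mul, h1, mul_pow, sq (w i), mul_mul_mul_comm]
  have hb : 0 < v c0 ^ j * w j :=
    zero_lt_iff.2 (mul_ne_zero (pow_ne_zero _ ((Valuation.ne_zero_iff v).2 hc0)) hwj)
  have hd : 0 < v c ^ j * w j :=
    zero_lt_iff.2 (mul_ne_zero (pow_ne_zero _ ((Valuation.ne_zero_iff v).2 hc)) hwj)
  refine ⟨c1, hc10, fun i hi => ?_⟩
  refine lt_of_pow_lt_pow_left₀ 2 zero_le ?_
  rw [hsq, hsq]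
  rcases lt_or_gt_of_ne hi with h | h
  · calc (v c0 ^ i * w i) * (v c ^ i * w i) ≤ (v c0 ^ j * w j) * (v c ^ i * w i) :=
          mul_le_mul_left (hl i h) _
      _ < (v c0 ^ j * w j) * (v c ^ j * w j) :=
          mul_lt_mul_of_pos_left (hlt i (Or.inl h)) hb
  · calc (v c0 ^ i * w i) * (v c ^ i * w i) ≤ (v c0 ^ i * w i) * (v c ^ j * w j) :=
          mul_le_mul_right (hle i) _
      _ < (v c0 ^ j * w j) * (v c ^ j * w j) :=
          mul_lt_mul_of_pos_right (hr i h) hd

section Main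

variable {K : Type} [Field K] (O : ValuationSubring K) {κ : Type} [Field κ] (θ : O →+* κ)
  {τ : Type} [Fintype τ] {V : Set (τ → K)} {V' : Set (τ → κ)}

theorem rel_chain [IsAlgClosed K] (hθ : Function.Surjective θ) (hV : Reduces O θ V V')
    (hV0 : ∀ v ∈ V, v ≠ 0) (hV' : V'.Nonempty) (hV'0 : ∀ v ∈ V', v ≠ 0)
    {F : Polynomial (MvPolynomial τ K)} {e N : ℕ} (hd : F.natDegree ≤ e)
    (hF : ∀ s : K, IsChow V N (F.eval (C s))) {α : ℕ → K} {h : ℕ → MvPolynomial τ O}
    (hα : ∀ i, F.coeff i = C (α i) * map (algebraMap O K) (h i)) (hh : ∀ i, map θ (h i) ≠ 0)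
    (hαe : α e ≠ 0) (hz : ∀ i, e < i → α i = 0) (he : IsChow V' N (map θ (h e))) (n : ℕ) :
    ∀ j, e - j ≤ n → j ≤ e → Inv O.valuation (fun i => O.valuation (α i)) j →
      IsChow V' N (map θ (h j)) → Rel V' N ((e - j) * N) (e - j) (map θ (h j)) (map θ (h e)) := by
  obtain ⟨v0, hv0⟩ := hV'
  induction n with
  | zero =>
    intro j h1 h2 _ _
    have : j = e := by omega
    rw [this, Nat.sub_self, zero_mul]
    exact rel_refl he
  | succ n ih =>
    intro j h1 h2 hI hvj
    rcases h2.eq_or_lt with h4 | h4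
    · rw [h4, Nat.sub_self, zero_mul]
      exact rel_refl he
    have hwe : O.valuation (α e) ≠ 0 := (Valuation.ne_zero_iff _).2 hαe
    have hwz : ∀ i, e < i → O.valuation (α i) = 0 := fun i hi => by rw [hz i hi, map_zero]
    obtain ⟨j', h5, h6, h7⟩ := step_aux O.valuation (fun i => O.valuation (α i)) e j
      (fun i => ⟨α i, rfl⟩) hwe hwz hI h4
    have hjj' : j < j' := h6.1
    have hvj' : IsChow V' N (map θ (h j')) := by
      rcases h5.eq_or_lt with h8 | h8
      · rw [h8]
        exact he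
      obtain ⟨j'', -, h9, -⟩ := step_aux O.valuation (fun i => O.valuation (α i)) e j'
        (fun i => ⟨α i, rfl⟩) hwe hwz h7 h8
      obtain ⟨c, hc, hlt⟩ := vertex_aux _ _ h7 (by omega) h9
      exact vertex O θ hθ hV hV0 hd hF hα hc ((Valuation.ne_zero_iff _).1 h7.1) h5 hlt
    obtain ⟨b, hb, hfam⟩ := side O θ hθ hV hV0 hd hF hα h5 h6 hvj
    have hrel1 : Rel V' N 0 (j' - j) (map θ (h j)) (map θ (h j')) := by
      refine ⟨1, 1, b, isChow_one, one_ne_zero, one_ne_zero, hb, ?_⟩
      rw [mul_one, mul_one, C_1, one_mul]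
      exact hfam
    have hrel2 := ih j' (by omega) h5 h7 hvj'
    have hrel3 := hrel1.trans hrel2 hvj' (hh j')
    have hm : 0 + N + (e - j') * N ≤ (e - j) * N := by
      have h8 : e - j = (j' - j) + (e - j') := by omega
      have h9 : 1 ≤ j' - j := by omega
      calc 0 + N + (e - j') * N = 1 * N + (e - j') * N := by ring
        _ ≤ (j' - j) * N + (e - j') * N := Nat.add_le_add_right (Nat.mul_le_mul_right _ h9) _
        _ = (e - j) * N := by rw [h8]; ring
    obtain ⟨k, hk⟩ := Nat.exists_eq_add_of_le hm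
    have hpad := hrel3.pad (k := k) (q := chow fun _ : Fin k => v0)
      ⟨1, fun _ => v0, fun _ => hv0, by rw [C_1, one_mul]⟩
      (chow_ne_zero' fun _ => hV'0 _ hv0)
    have h8 : j' - j + (e - j') = e - j := by omega
    rw [h8, ← hk] at hpad
    exact hpad

theorem chow_append' {A : Type} [CommRing A] {n m : ℕ} (x : Fin n → τ → A) (w : Fin m → τ → A) :
    chow (Fin.append x w) = chow x * chow w := by
  rw [chow, Fin.prod_univ_add]
  simp only [Fin.append_left, Fin.append_right]
  rfl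

theorem linked_of_fam [Infinite κ] {N d : ℕ} {f g : MvPolynomial τ κ} (h : Fam V' N d f g) :
    Linked V' N d f g := by
  obtain ⟨F, hd, h0, h1, hs⟩ := h
  have hs' : ∀ s : κ, ∃ (a : κ) (z : Fin N → τ → κ), (∀ i, z i ∈ V') ∧
      ∑ i : Fin (d + 1), C (s ^ (i : ℕ)) * F.coeff i = C a * chow z := by
    intro s
    obtain ⟨a, z, hz, haz⟩ := hs s
    refine ⟨a, z, hz, ?_⟩
    rw [← haz, Polynomial.eval_eq_sum_range' (Nat.lt_succ_of_le hd), Finset.sum_range]
    refine Finset.sum_congr rfl fun i _ => ?_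
    rw [C_pow, mul_comm]
  refine ⟨fun i => F.coeff i, fun i => ?_, ?_, ?_, hs'⟩
  · exact coeff_isHomogeneous (G := fun i : Fin (d + 1) => F.coeff i) (fun s => by
      obtain ⟨a, z, -, h⟩ := hs' s
      exact ⟨a, z, h⟩) i
  · show F.coeff ((0 : Fin (d + 1)) : ℕ) = f
    rw [Fin.val_zero, h0]
  · show F.coeff ((Fin.last d : Fin (d + 1)) : ℕ) = g
    rw [Fin.val_last, h1]

theorem fam_of_linked {N d : ℕ} {f g : MvPolynomial τ K} (h : Linked V N d f g) :
    Fam V N d f g := by
  obtain ⟨G, -, h0, h1, hs⟩ := h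
  set F : Polynomial (MvPolynomial τ K) :=
    ∑ i : Fin (d + 1), Polynomial.C (G i) * Polynomial.X ^ (i : ℕ) with hFdef
  have hcoeff : ∀ i : Fin (d + 1), F.coeff i = G i := by
    intro i
    simp only [hFdef, Polynomial.finsetSum_coeff, Polynomial.coeff_C_mul,
      Polynomial.coeff_X_pow, mul_ite, mul_one, mul_zero]
    rw [Finset.sum_eq_single i]
    · rw [if_pos rfl]
    · intro j _ hj
      rw [if_neg]
      intro h2
      exact hj (Fin.ext h2.symm)
    · intro h2
      exact absurd (Finset.mem_univ _) h2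
  refine ⟨F, ?_, ?_, ?_, fun s => ?_⟩
  · refine Polynomial.natDegree_sum_le_of_forall_le _ _ fun i _ => ?_
    refine (Polynomial.natDegree_C_mul_X_pow_le _ _).trans ?_
    exact Nat.le_of_lt_succ i.2
  · have := hcoeff 0
    rw [Fin.val_zero] at this
    rw [this, h0]
  · have := hcoeff (Fin.last d)
    rw [Fin.val_last] at this
    rw [this, h1]
  · obtain ⟨a, z, hz, haz⟩ := hs s
    refine ⟨a, z, hz, ?_⟩
    rw [← haz, hFdef, Polynomial.eval_finsetSum]
    refine Finset.sum_congr rfl fun i _ => ?_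
    rw [Polynomial.eval_mul, Polynomial.eval_C, Polynomial.eval_pow, Polynomial.eval_X, C_pow,
      mul_comm]

/-- **Specialisation over a valuation ring.** -/
theorem ratEq_special [IsAlgClosed K] [Infinite κ] (hθ : Function.Surjective θ)
    (hV : Reduces O θ V V') (hV0 : ∀ v ∈ V, v ≠ 0) (hV' : V'.Nonempty) (hV'0 : ∀ v ∈ V', v ≠ 0)
    {n c : ℕ} {x y : Fin n → τ → O} (hx : ∀ i, (fun a => θ (x i a)) ≠ 0)
    (hy : ∀ i, (fun a => θ (y i a)) ≠ 0) (hyV : ∀ i, (fun a => algebraMap O K (y i a)) ∈ V)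
    (h : RatEq V c (fun i a => algebraMap O K (x i a)) fun i a => algebraMap O K (y i a)) :
    RatEq V' (c * (n + c + 1)) (fun i a => θ (x i a)) fun i a => θ (y i a) := by
  obtain ⟨w, a, b, hw, ha, hb, h⟩ := h
  obtain ⟨F, hd, hF0, hFc, hF⟩ := fam_of_linked h
  -- the auxiliary points
  choose r u hr hu hne using fun i => exists_prim_vec O θ (hV0 _ (hw i))
  have hw' : w = fun i a => r i * algebraMap O K (u i a) := by
    funext i a
    exact hu i a
  have hmem : ∀ i, (fun a => θ (u i a)) ∈ V' := by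
    intro i
    refine hV (r i) (u i) (hr i) ?_ (hne i)
    have h1 : (fun a => r i * ((u i a : O) : K)) = w i := by
      rw [hw']
      rfl
    rw [h1]
    exact hw i
  have hr0 : ∏ i, r i ≠ 0 := Finset.prod_ne_zero_iff.mpr fun i _ => hr i
  have hchow : chow w = C (∏ i, r i) * map (algebraMap O K) (chow u) := by
    rw [map_chow, ← chow_smul, ← hw']
  have hux : map θ (chow x * chow u) ≠ 0 := by
    rw [(map θ).map_mul, map_chow, map_chow]
    exact mul_ne_zero (chow_ne_zero' hx) (chow_ne_zero' hne)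
  have huy : map θ (chow y * chow u) ≠ 0 := by
    rw [(map θ).map_mul, map_chow, map_chow]
    exact mul_ne_zero (chow_ne_zero' hy) (chow_ne_zero' hne)
  -- the coefficients
  choose α g hg hα using fun i => exists_prim O θ (F.coeff i)
  have hF0' : C (a * ∏ i, r i) * map (algebraMap O K) (chow x * chow u) =
      C (α 0) * map (algebraMap O K) (g 0) := by
    rw [← hα 0, hF0, hchow, (map (algebraMap O K)).map_mul, map_chow _ x, C_mul]
    ring
  have hFc' : C (b * ∏ i, r i) * map (algebraMap O K) (chow y * chow u) =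
      C (α c) * map (algebraMap O K) (g c) := by
    rw [← hα c, hFc, hchow, (map (algebraMap O K)).map_mul, map_chow _ y, C_mul]
    ring
  obtain ⟨hα0, d0, hd0, e0⟩ := prim_unique O θ hux (hg 0) (mul_ne_zero ha hr0) hF0'
  obtain ⟨hαc, d1, hd1, e1⟩ := prim_unique O θ huy (hg c) (mul_ne_zero hb hr0) hFc'
  have hz : ∀ i, c < i → α i = 0 := by
    intro i hi
    have h1 : F.coeff i = 0 := Polynomial.coeff_eq_zero_of_natDegree_lt (lt_of_le_of_lt hd hi)
    rw [hα i] at h1
    rcases mul_eq_zero.1 h1 with h2 | h2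
    · rw [← C_0, C_inj] at h2
      exact h2
    · exfalso
      apply hg i
      have h3 : g i = 0 := by
        apply map_injective_O O
        rw [h2, (map (algebraMap O K)).map_zero]
      rw [h3, (map θ).map_zero]
  have hg0 : IsChow V' (n + c) (map θ (g 0)) := by
    have h1 := hF 0
    rw [C_0, ← Polynomial.coeff_zero_eq_eval_zero, hα 0] at h1
    exact isChow_special O θ hθ hV hV0 (h1.of_smul hα0)
  have hgc : IsChow V' (n + c) (map θ (g c)) := by
    have h1 : IsChow V' (n + c) (map θ (chow y * chow u)) := by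
      rw [(map θ).map_mul, map_chow, map_chow]
      refine IsChow.mul ⟨1, _, fun i => ?_, by rw [C_1, one_mul]⟩ ⟨1, _, hmem, by rw [C_1, one_mul]⟩
      refine hV 1 (y i) one_ne_zero ?_ (hy i)
      simp only [one_mul]
      exact hyV i
    rw [e1] at h1
    exact h1.of_smul hd1
  have hrel := rel_chain O θ hθ hV hV0 hV' hV'0 hd hF hα hg hαc hz hgc c 0 (by omega)
    (Nat.zero_le _) ⟨(Valuation.ne_zero_iff _).2 hα0, Or.inl rfl⟩ hg0
  rw [Nat.sub_zero] at hrel
  obtain ⟨p, a', b', ⟨a0, z, hz, hp⟩, hp0, ha', hb', hfam⟩ := hrel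
  have ha0 : a0 ≠ 0 := by
    rintro rfl
    rw [C_0, zero_mul] at hp
    exact hp0 hp
  have hR2 : RatEq2 V' (c + c * (n + c)) c (fun i a => θ (x i a)) fun i a => θ (y i a) := by
    refine ⟨Fin.append (fun i a => θ (u i a)) z, a' * d0⁻¹ * a0, b' * d1⁻¹ * a0, fun i => ?_,
      mul_ne_zero (mul_ne_zero ha' (inv_ne_zero hd0)) ha0,
      mul_ne_zero (mul_ne_zero hb' (inv_ne_zero hd1)) ha0, ?_⟩
    · refine Fin.addCases (fun i => ?_) (fun i => ?_) i
      · rw [Fin.append_left]
        exact hmem i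
      · rw [Fin.append_right]
        exact hz i
    · rw [chow_append']
      have h1 := linked_of_fam hfam
      have f0 : map θ (g 0) = C d0⁻¹ * (chow (fun i a => θ (x i a)) * chow fun i a => θ (u i a)) := by
        rw [← map_chow, ← map_chow, ← (map θ).map_mul, e0, ← mul_assoc, ← C_mul,
          inv_mul_cancel₀ hd0, C_1, one_mul]
      have f1 : map θ (g c) = C d1⁻¹ * (chow (fun i a => θ (y i a)) * chow fun i a => θ (u i a)) := by
        rw [← map_chow, ← map_chow, ← (map θ).map_mul, e1, ← mul_assoc, ← C_mul,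
          inv_mul_cancel₀ hd1, C_1, one_mul]
      rw [f0, f1, hp] at h1
      have g0 : C a' * (C d0⁻¹ * (chow (fun i a => θ (x i a)) * chow fun i a => θ (u i a)) *
          (C a0 * chow z)) = C (a' * d0⁻¹ * a0) * (chow (fun i a => θ (x i a)) *
          (chow (fun i a => θ (u i a)) * chow z)) := by
        rw [C_mul, C_mul]
        ring
      have g1 : C b' * (C d1⁻¹ * (chow (fun i a => θ (y i a)) * chow fun i a => θ (u i a)) *
          (C a0 * chow z)) = C (b' * d1⁻¹ * a0) * (chow (fun i a => θ (y i a)) *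
          (chow (fun i a => θ (u i a)) * chow z)) := by
        rw [C_mul, C_mul]
        ring
      rw [g0, g1] at h1
      have g2 : n + (c + c * (n + c)) = n + c + c * (n + c) := by ring
      rw [g2]
      exact h1
  have hle1 : c + c * (n + c) ≤ c * (n + c + 1) := le_of_eq (by ring)
  have hle2 : c ≤ c * (n + c + 1) := Nat.le_mul_of_pos_right _ (Nat.succ_pos _)
  exact hR2.mono hV' hle1 hle2

end Main

end Pool.Agent.H837.SP
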