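import Pool.Agent.H837.SP.Level

/-!
# Reduction to finitely generated rings
-/

set_option autoImplicit false

namespace Pool.Agent.H837.SP

open MvPolynomial Pool.Agent.H837.UF Pool.Agent.H837.QB
open Topology (IsConstructible)

variable {R : Type} [CommRing R] {r n : ℕ}

theorem exists_model {S : Finset (MvPolynomial (Fin (r + 1)) R)}
    (hS : ∀ P ∈ S, ∃ d : ℕ, P.IsHomogeneous d) {x y : Fin n → Fin (r + 1) → R}
    (hx : ∀ i, IsSection S (x i)) (hy : ∀ i, IsSection S (y i)) :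
    ∃ (A : Type) (_ : CommRing A) (_ : Algebra.FiniteType ℤ A) (f : A →+* R)
      (S₀ : Finset (MvPolynomial (Fin (r + 1)) A)) (x₀ y₀ : Fin n → Fin (r + 1) → A),
      (∀ P ∈ S₀, ∃ d : ℕ, P.IsHomogeneous d) ∧ (∀ i, IsSection S₀ (x₀ i)) ∧
      (∀ i, IsSection S₀ (y₀ i)) ∧ (∀ P, P ∈ S ↔ ∃ Q ∈ S₀, map f Q = P) ∧
      (∀ i a, f (x₀ i a) = x i a) ∧ ∀ i a, f (y₀ i a) = y i a := by
  classical
  have hone : ∀ v : Fin (r + 1) → R, IsSection S v → ∃ m : Fin (r + 1) → R,
      ∑ a, m a * v a = 1 := by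
    intro v hv
    have h1 : (1 : R) ∈ Ideal.span (Set.range v) := by
      rw [hv.1]
      exact Submodule.mem_top
    exact (Ideal.mem_span_range_iff_exists_fun).mp h1
  choose m hm using fun i => hone (x i) (hx i)
  choose m' hm' using fun i => hone (y i) (hy i)
  set T : Set R := (⋃ P ∈ S, (P.coeffs : Set R)) ∪ (Set.range fun p : Fin n × Fin (r + 1) => x p.1 p.2) ∪
    (Set.range fun p : Fin n × Fin (r + 1) => y p.1 p.2) ∪
    (Set.range fun p : Fin n × Fin (r + 1) => m p.1 p.2) ∪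
    (Set.range fun p : Fin n × Fin (r + 1) => m' p.1 p.2) with hT
  have hTfin : T.Finite := by
    refine (((Set.Finite.union (Set.Finite.biUnion S.finite_toSet fun P _ => ?_)
      (Set.finite_range _)).union (Set.finite_range _)).union (Set.finite_range _)).union
      (Set.finite_range _)
    exact Finset.finite_toSet _
  set A : Subalgebra ℤ R := Algebra.adjoin ℤ T with hA
  have hfg : A.FG := by
    obtain ⟨T', hT'⟩ := hTfin.exists_finset_coe
    exact ⟨T', by rw [hT']⟩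
  have hft : Algebra.FiniteType ℤ A := (Subalgebra.fg_iff_finiteType A).mp hfg
  have hsub : T ⊆ A := Algebra.subset_adjoin
  have hfinj : Function.Injective (algebraMap A R) := Subtype.coe_injective
  have hxA : ∀ i a, x i a ∈ A := fun i a => hsub (by
    refine Or.inl (Or.inl (Or.inl (Or.inr ⟨(i, a), rfl⟩))))
  have hyA : ∀ i a, y i a ∈ A := fun i a => hsub (by
    refine Or.inl (Or.inl (Or.inr ⟨(i, a), rfl⟩)))
  have hmA : ∀ i a, m i a ∈ A := fun i a => hsub (by
    refine Or.inl (Or.inr ⟨(i, a), rfl⟩))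
  have hmA' : ∀ i a, m' i a ∈ A := fun i a => hsub (by
    refine Or.inr ⟨(i, a), rfl⟩)
  have hlift : ∀ P : S, ∃ Q : MvPolynomial (Fin (r + 1)) A, map (algebraMap A R) Q = P := by
    intro P
    have h1 : (P : MvPolynomial (Fin (r + 1)) R) ∈
        Set.range (map (σ := Fin (r + 1)) (algebraMap A R)) := by
      rw [mem_range_map_iff_coeffs_subset]
      intro c hc
      have h2 : c ∈ A := hsub (Or.inl (Or.inl (Or.inl (Or.inl
        (Set.mem_biUnion (x := (P : MvPolynomial (Fin (r + 1)) R)) P.2 hc)))))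
      exact ⟨⟨c, h2⟩, rfl⟩
    exact h1
  choose Q hQ using hlift
  have heval : ∀ (v : Fin (r + 1) → A) (P : MvPolynomial (Fin (r + 1)) A),
      eval (fun a => algebraMap A R (v a)) (map (algebraMap A R) P) = 0 → eval v P = 0 := by
    intro v P h0
    apply hfinj
    rw [map_zero, ← h0, eval_map]
    exact eval₂_comp (algebraMap A R) v P
  have hsec : ∀ (v : Fin (r + 1) → A) (k : Fin (r + 1) → A),
      ∑ a, (k a : R) * (v a : R) = 1 → IsSection S (fun a => (v a : R)) →
        IsSection (Finset.univ.image Q) v := by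
    intro v k hk hv
    refine ⟨?_, ?_⟩
    · rw [Ideal.eq_top_iff_one, Ideal.mem_span_range_iff_exists_fun]
      refine ⟨k, hfinj ?_⟩
      rw [map_sum, map_one, ← hk]
      rfl
    · intro P hP
      obtain ⟨P', -, rfl⟩ := Finset.mem_image.mp hP
      apply heval
      rw [hQ P']
      exact hv.2 P' P'.2
  refine ⟨A, inferInstance, hft, algebraMap A R, Finset.univ.image Q,
    fun i a => ⟨x i a, hxA i a⟩, fun i a => ⟨y i a, hyA i a⟩, ?_, fun i => ?_, fun i => ?_,
    fun P => ?_, fun i a => rfl, fun i a => rfl⟩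
  · intro P hP
    obtain ⟨P', -, rfl⟩ := Finset.mem_image.mp hP
    obtain ⟨d, hd⟩ := hS P' P'.2
    refine ⟨d, fun μ hμ => ?_⟩
    refine hd ?_
    rw [← hQ P', coeff_map]
    intro h0
    exact hμ (hfinj (by rw [h0, map_zero]))
  · exact hsec _ (fun a => ⟨m i a, hmA i a⟩) (hm i) (hx i)
  · exact hsec _ (fun a => ⟨m' i a, hmA' i a⟩) (hm' i) (hy i)
  · constructor
    · intro hP
      exact ⟨Q ⟨P, hP⟩, Finset.mem_image.mpr ⟨⟨P, hP⟩, Finset.mem_univ _, rfl⟩, hQ _⟩
    · rintro ⟨P', hP', rfl⟩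
      obtain ⟨P'', -, rfl⟩ := Finset.mem_image.mp hP'
      rw [hQ P'']
      exact P''.2

section Pull

variable {A : Type} [CommRing A] {f : A →+* R} {S : Finset (MvPolynomial (Fin (r + 1)) R)}
  {S₀ : Finset (MvPolynomial (Fin (r + 1)) A)} {x y : Fin n → Fin (r + 1) → R}
  {x₀ y₀ : Fin n → Fin (r + 1) → A}

theorem cone_pull (hSS : ∀ P, P ∈ S ↔ ∃ Q ∈ S₀, map f Q = P) {K : Type} [Field K] (φ : R →+* K) :
    Cone S φ = Cone S₀ (φ.comp f) := by
  ext v
  refine and_congr_right fun _ => ?_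
  constructor
  · intro h Q hQ
    rw [← MvPolynomial.map_map]
    exact h _ ((hSS _).mpr ⟨Q, hQ, rfl⟩)
  · intro h P hP
    obtain ⟨Q, hQ, rfl⟩ := (hSS P).mp hP
    rw [MvPolynomial.map_map]
    exact h Q hQ

theorem ratEq_pull (hSS : ∀ P, P ∈ S ↔ ∃ Q ∈ S₀, map f Q = P) (hx : ∀ i a, f (x₀ i a) = x i a)
    (hy : ∀ i a, f (y₀ i a) = y i a) {K : Type} [Field K] (φ : R →+* K) (c : ℕ) :
    RatEq (Cone S φ) c (image φ x) (image φ y) ↔
      RatEq (Cone S₀ (φ.comp f)) c (image (φ.comp f) x₀) (image (φ.comp f) y₀) := by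
  have h1 : image (φ.comp f) x₀ = image φ x := by
    funext i a
    show φ (f (x₀ i a)) = φ (x i a)
    rw [hx]
  have h2 : image (φ.comp f) y₀ = image φ y := by
    funext i a
    show φ (f (y₀ i a)) = φ (y i a)
    rw [hy]
  rw [h1, h2, cone_pull hSS φ]

theorem ratEq_iff_mem_level [Countable A] (hSS : ∀ P, P ∈ S ↔ ∃ Q ∈ S₀, map f Q = P)
    (hx : ∀ i a, f (x₀ i a) = x i a) (hy : ∀ i a, f (y₀ i a) = y i a) {K : Type} [Field K]
    [IsAlgClosed K] (φ : R →+* K) (p : PrimeSpectrum R) (hp : RingHom.ker φ = p.asIdeal) (c : ℕ) :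
    RatEq (Cone S φ) c (image φ x) (image φ y) ↔ PrimeSpectrum.comap f p ∈ Level S₀ x₀ y₀ c := by
  rw [ratEq_pull hSS hx hy φ c]
  have hker : RingHom.ker (φ.comp f) = RingHom.ker (geo (PrimeSpectrum.comap f p)) := by
    ext a
    rw [RingHom.mem_ker, RingHom.mem_ker, geo_eq_zero, RingHom.comp_apply, ← RingHom.mem_ker, hp]
    rfl
  exact ⟨ratEq_of_ker_eq S₀ hker c x₀ y₀, ratEq_of_ker_eq S₀ hker.symm c x₀ y₀⟩

theorem ker_geo (p : PrimeSpectrum R) : RingHom.ker (geo p) = p.asIdeal := by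
  ext a
  rw [RingHom.mem_ker, geo_eq_zero]

theorem level_pull [Countable A] (hSS : ∀ P, P ∈ S ↔ ∃ Q ∈ S₀, map f Q = P)
    (hx : ∀ i a, f (x₀ i a) = x i a) (hy : ∀ i a, f (y₀ i a) = y i a) (c : ℕ) :
    Level S x y c = PrimeSpectrum.comap f ⁻¹' Level S₀ x₀ y₀ c := by
  ext p
  exact ratEq_iff_mem_level hSS hx hy (geo p) p (ker_geo p) c

end Pull

variable {S : Finset (MvPolynomial (Fin (r + 1)) R)} {x y : Fin (n + 1) → Fin (r + 1) → R}

/-- The complexity over an algebraically closed field depends only on the point of the spectrum. -/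
theorem ratEq_iff_level (hS : ∀ P ∈ S, ∃ d : ℕ, P.IsHomogeneous d)
    (hx : ∀ i, IsSection S (x i)) (hy : ∀ i, IsSection S (y i)) {K : Type} [Field K]
    [IsAlgClosed K] (φ : R →+* K) (p : PrimeSpectrum R) (hp : RingHom.ker φ = p.asIdeal) (c : ℕ) :
    RatEq (Cone S φ) c (image φ x) (image φ y) ↔ p ∈ Level S x y c := by
  obtain ⟨A, _, _, f, S₀, x₀, y₀, -, -, -, hSS, hxx, hyy⟩ := exists_model hS hx hy
  have hc : Countable A := countable_of_finiteType
  rw [ratEq_iff_mem_level hSS hxx hyy φ p hp c, level_pull hSS hxx hyy c]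
  rfl

theorem isConstructible_level (hS : ∀ P ∈ S, ∃ d : ℕ, P.IsHomogeneous d)
    (hx : ∀ i, IsSection S (x i)) (hy : ∀ i, IsSection S (y i)) (c : ℕ) :
    IsConstructible (Level S x y c) := by
  obtain ⟨A, _, _, f, S₀, x₀, y₀, -, -, -, hSS, hxx, hyy⟩ := exists_model hS hx hy
  have hc : Countable A := countable_of_finiteType
  have hN : IsNoetherianRing A := Algebra.FiniteType.isNoetherianRing ℤ A
  rw [level_pull hSS hxx hyy c]
  have h1 := isConstructible_of_generic (Level S₀ x₀ y₀ c) (generic_level c)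
  obtain ⟨D, hD⟩ := PrimeSpectrum.exists_constructibleSetData_iff.mpr h1
  rw [← hD, ← PrimeSpectrum.ConstructibleSetData.toSet_map]
  exact PrimeSpectrum.ConstructibleSetData.isConstructible_toSet _

theorem closure_level (hS : ∀ P ∈ S, ∃ d : ℕ, P.IsHomogeneous d)
    (hx : ∀ i, IsSection S (x i)) (hy : ∀ i, IsSection S (y i)) (c : ℕ) :
    closure (Level S x y c) ⊆ Level S x y (c * (n + c + 2)) := by
  obtain ⟨A, _, _, f, S₀, x₀, y₀, hS₀, hx₀, hy₀, hSS, hxx, hyy⟩ := exists_model hS hx hy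
  have hc : Countable A := countable_of_finiteType
  rw [level_pull hSS hxx hyy c, level_pull hSS hxx hyy (c * (n + c + 2))]
  refine ((PrimeSpectrum.continuous_comap f).closure_preimage_subset _).trans ?_
  exact Set.preimage_mono (closure_level_countable hS₀ hx₀ hy₀ c)

end Pool.Agent.H837.SP
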