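import Pool.Agent.H837.SP.Uniform

/-!
# Moving zero-cycles to a hyperplane section, in families over arbitrary rings
-/

set_option autoImplicit false

namespace Pool.Agent.H837.SP

open MvPolynomial Pool.Agent.H837.UF Pool.Agent.H837.QB Pool.Agent.Y148.OD
open Filter hiding map
open Topology (IsConstructible)

variable {R : Type} [CommRing R] {r : ℕ} {S : Finset (MvPolynomial (Fin (r + 1)) R)}
  {l : Fin (r + 1) → R}

/-- If almost all cycles can be moved with complexity at most `c`, so can the cycles over the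
ultraproduct. -/
theorem moves_of_eventually {J : Type} {U : Ultrafilter J} {K : J → Type} [∀ j, Field (K j)]
    {L : Type} [Field L] {π : (∀ j, K j) →+* L} (hπ : IsUltra U π) (φ : ∀ j, R →+* K j) (n c : ℕ)
    (h : ∀ᶠ j in U, Moves S l (φ j) n c) : Moves S l (π.comp (RingHom.pi φ)) n c := by
  have hlim := cone_lim hπ S (RingHom.pi φ)
  intro z hz
  choose x' hx' using fun i a => hπ.surj (z i a)
  obtain rfl : (fun i a => π (x' i a)) = z := funext fun i => funext fun a => hx' i a
  have h1 : ∀ᶠ j in U, ∀ i, (fun a => x' i a j) ∈ Cone S (φ j) := by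
    rw [eventually_all]
    intro i
    exact (hlim (x' i)).mp (hz i)
  have h2 : ∀ᶠ j in U, ∃ y : Fin (n + 1) → Fin (r + 1) → K j, (∀ i, y i ∈ Cone S (φ j)) ∧
      ∑ a, φ j (l a) * y 0 a = 0 ∧ RatEq (Cone S (φ j)) c (fun i a => x' i a j) y := by
    filter_upwards [h, h1] with j hj hj1
    exact hj _ hj1
  obtain ⟨y, hy⟩ := eventually_choose h2
  refine ⟨fun i a => π fun j => y j i a, fun i => (hlim fun a j => y j i a).mpr ?_, ?_, ?_⟩
  · filter_upwards [hy] with j hj
    exact hj.1 i
  · refine (plane_iff hπ l (RingHom.pi φ) fun a j => y j 0 a).mpr ?_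
    filter_upwards [hy] with j hj
    exact hj.2.1
  · refine (ratEq_iff hπ hlim c x' fun i a j => y j i a).mpr ?_
    filter_upwards [hy] with j hj
    exact hj.2.2

/-- If almost all cycles of degree `n + 1` cannot be moved with complexity at most `d j`, and `d j` tends
to infinity, then some cycle over the ultraproduct cannot be moved. -/
theorem not_moves_of_eventually {J : Type} {U : Ultrafilter J} {K : J → Type} [∀ j, Field (K j)]
    {L : Type} [Field L] {π : (∀ j, K j) →+* L} (hπ : IsUltra U π) (φ : ∀ j, R →+* K j) (n : ℕ)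
    (d : J → ℕ) (h : ∀ᶠ j in U, ¬ Moves S l (φ j) n (d j)) :
    ∃ x : Fin (n + 1) → Fin (r + 1) → L, (∀ i, x i ∈ Cone S (π.comp (RingHom.pi φ))) ∧
      ∀ y : Fin (n + 1) → Fin (r + 1) → L, (∀ i, y i ∈ Cone S (π.comp (RingHom.pi φ))) →
        ∑ a, (π.comp (RingHom.pi φ)) (l a) * y 0 a = 0 → ∀ c, (∀ᶠ j in U, c ≤ d j) →
          ¬ RatEq (Cone S (π.comp (RingHom.pi φ))) c x y := by
  have hlim := cone_lim hπ S (RingHom.pi φ)
  have hx : ∀ᶠ j in U, ∃ x : Fin (n + 1) → Fin (r + 1) → K j, (∀ i, x i ∈ Cone S (φ j)) ∧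
      ∀ y : Fin (n + 1) → Fin (r + 1) → K j, (∀ i, y i ∈ Cone S (φ j)) →
        ∑ a, φ j (l a) * y 0 a = 0 → ¬ RatEq (Cone S (φ j)) (d j) x y := by
    filter_upwards [h] with j hj
    rw [Moves] at hj
    push Not at hj
    exact hj
  obtain ⟨x, hx⟩ := eventually_choose hx
  refine ⟨fun i a => π fun j => x j i a, fun i => (hlim fun a j => x j i a).mpr (by
    filter_upwards [hx] with j hj
    exact hj.1 i), ?_⟩
  intro y hy hy0 c hc hR
  choose y' hy' using fun i a => hπ.surj (y i a)
  obtain rfl : (fun i a => π (y' i a)) = y := funext fun i => funext fun a => hy' i a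
  have h1 := (ratEq_iff hπ hlim c (fun i a j => x j i a) y').mp hR
  have h2 : ∀ᶠ j in U, ∀ i, (fun a => y' i a j) ∈ Cone S (φ j) := by
    rw [eventually_all]
    intro i
    exact (hlim (y' i)).mp (hy i)
  have h3 := (plane_iff hπ l (RingHom.pi φ) (y' 0)).mp hy0
  obtain ⟨j, ⟨⟨⟨hj0, hj1⟩, hj2⟩, hj3⟩, hj4⟩ := ((((hx.and h1).and h2).and h3).and hc).exists
  exact hj0.2 _ hj2 hj3 (RatEq.mono hj1 ⟨_, hj2 0⟩ hj4)

variable (S l) in
theorem moves_elementary (n c : ℕ) : Elementary (R := R) (fun _ _ φ => Moves S l φ n c) := by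
  intro J U K _ _ L _ π hπ φ
  constructor
  · intro h
    by_contra hcon
    rw [← Ultrafilter.eventually_not] at hcon
    obtain ⟨x, hx, hno⟩ := not_moves_of_eventually hπ φ n (fun _ => c) hcon
    obtain ⟨y, hy, hy0, hR⟩ := h x hx
    exact hno y hy hy0 c (Eventually.of_forall fun _ => le_rfl) hR
  · exact moves_of_eventually hπ φ n c

/-- Every point of a special fibre over a valuation ring lifts to a point over the valuation ring, as
for a flat family. -/
def LiftsPoints (S : Finset (MvPolynomial (Fin (r + 1)) R)) : Prop :=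
  ∀ (K : Type) [Field K] [IsAlgClosed K] (O : ValuationSubring K) (φ : R →+* O)
    (v : Fin (r + 1) → IsLocalRing.ResidueField O), v ∈ Cone S ((IsLocalRing.residue O).comp φ) →
      ∃ u : Fin (r + 1) → O, (∀ a, IsLocalRing.residue O (u a) = v a) ∧
        ∀ P ∈ S, eval u (map φ P) = 0

/-- Moving zero-cycles specialises, with an explicit bound. -/
theorem moves_specialise (hS : ∀ P ∈ S, ∃ d : ℕ, P.IsHomogeneous d) (hL : LiftsPoints S)
    {K L : Type} [Field K] [Field L] [IsAlgClosed K] [IsAlgClosed L] {φ : R →+* K} {ψ : R →+* L}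
    (hker : ∀ a, φ a = 0 → ψ a = 0) {n c : ℕ} (h : Moves S l φ n c) :
    Moves S l ψ n (c * (n + c + 2)) := by
  have hprime : (RingHom.ker ψ).IsPrime := RingHom.ker_isPrime ψ
  obtain ⟨O, φ', rfl, hres⟩ := exists_place φ (RingHom.ker ψ) hker
  have := residue_isAlgClosed O
  have : Infinite (IsLocalRing.ResidueField O) := IsAlgClosed.instInfinite
  refine (moves_elementary S l n (c * (n + c + 2))).of_ker_eq (K := IsLocalRing.ResidueField O)
    (φ := (IsLocalRing.residue O).comp φ') ?_ ?_
  · ext a
    rw [RingHom.mem_ker, RingHom.mem_ker, RingHom.comp_apply, hres, RingHom.mem_ker]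
  have hinj : Function.Injective (algebraMap O K) := Subtype.coe_injective
  have hred := reduces_cone O (IsLocalRing.residue O) hS φ'
  intro z hz
  choose z' hz' hz0 using fun i => hL K O φ' (z i) (hz i)
  have hzK : ∀ i, (fun a => algebraMap O K (z' i a)) ∈ Cone S ((algebraMap O K).comp φ') := by
    intro i
    refine ⟨fun h0 => (hz i).1 ?_, fun P hP => ?_⟩
    · funext a
      have h1 : algebraMap O K (z' i a) = 0 := congrFun h0 a
      have h2 : z' i a = 0 := hinj (by rw [h1, (algebraMap O K).map_zero])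
      rw [← hz' i a, h2, map_zero]
      rfl
    · rw [← MvPolynomial.map_map, eval_map]
      have h1 := congrArg (algebraMap O K) (hz0 i P hP)
      rw [(algebraMap O K).map_zero] at h1
      rw [← h1]
      exact (eval₂_comp (algebraMap O K) (z' i) (map φ' P)).symm
  obtain ⟨y, hy, hy0, hR⟩ := h _ hzK
  choose s u hs hu hne using fun i => exists_prim_vec O (IsLocalRing.residue O) (hy i).1
  have hyV : ∀ i, (fun a => algebraMap O K (u i a)) ∈ Cone S ((algebraMap O K).comp φ') := by
    intro i
    have h1 := cone_smul hS _ (s i)⁻¹ _ (inv_ne_zero (hs i)) (hy i)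
    have h2 : (s i)⁻¹ • y i = fun a => algebraMap O K (u i a) := by
      funext a
      show (s i)⁻¹ * y i a = _
      rw [hu i a, ← mul_assoc, inv_mul_cancel₀ (hs i), one_mul]
      rfl
    rw [h2] at h1
    exact h1
  have hyC : ∀ i, (fun a => IsLocalRing.residue O (u i a)) ∈
      Cone S ((IsLocalRing.residue O).comp φ') := by
    intro i
    refine hred 1 (u i) one_ne_zero ?_ (hne i)
    simp only [one_mul]
    exact hyV i
  -- the rational equivalence with the normalised vectors
  have hR' : RatEq (Cone S ((algebraMap O K).comp φ')) c (fun i a => algebraMap O K (z' i a))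
      fun i a => algebraMap O K (u i a) := by
    obtain ⟨w, a, b, hw, ha, hb, hlink⟩ := hR
    have h1 : y = fun i a => s i * algebraMap O K (u i a) := by
      funext i a
      exact hu i a
    rw [h1, chow_smul] at hlink
    refine ⟨w, a, b * ∏ i, s i, hw, ha, mul_ne_zero hb (Finset.prod_ne_zero_iff.mpr fun i _ => hs i),
      ?_⟩
    have h2 : C (b * ∏ i, s i) * (chow (fun i a => algebraMap O K (u i a)) * chow w) =
        C b * (C (∏ i, s i) * chow (fun i a => algebraMap O K (u i a)) * chow w) := by
      rw [C_mul]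
      ring
    rw [h2]
    exact hlink
  have h2 := ratEq_special O (IsLocalRing.residue O) IsLocalRing.residue_surjective hred
    (fun v hv => hv.1) ⟨_, hz 0⟩ (fun v hv => hv.1) (x := z') (y := u)
    (fun i => by
      have h3 : (fun a => IsLocalRing.residue O (z' i a)) = z i := funext fun a => hz' i a
      rw [h3]
      exact (hz i).1) hne hyV hR'
  refine ⟨fun i a => IsLocalRing.residue O (u i a), hyC, ?_, ?_⟩
  · have h3 : ∑ a, φ' (l a) * u 0 a = 0 := by
      apply hinj
      rw [map_sum, (algebraMap O K).map_zero]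
      have h4 : s 0 * ∑ a, algebraMap O K (φ' (l a) * u 0 a) = 0 := by
        rw [Finset.mul_sum, ← hy0]
        refine Finset.sum_congr rfl fun a _ => ?_
        rw [(algebraMap O K).map_mul, hu 0 a, RingHom.comp_apply]
        show s 0 * (algebraMap O K (φ' (l a)) * algebraMap O K (u 0 a)) =
          algebraMap O K (φ' (l a)) * (s 0 * algebraMap O K (u 0 a))
        ring
      exact (mul_eq_zero.mp h4).resolve_left (hs 0)
    have h4 := congrArg (IsLocalRing.residue O) h3
    rw [map_sum, map_zero] at h4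
    rw [← h4]
    refine Finset.sum_congr rfl fun a _ => ?_
    rw [(IsLocalRing.residue O).map_mul]
    rfl
  · have h3 : (fun i a => IsLocalRing.residue O (z' i a)) = z := funext fun i => funext fun a => hz' i a
    have h4 : c * (n + c + 2) = c * (n + 1 + c + 1) := by ring
    rw [← h3, h4]
    exact h2

/-- The least `c` such that every effective zero-cycle of degree `c + 1` on the geometric fibre over `p` is
rationally equivalent, with complexity at most `c`, to one with a point on the hyperplane. -/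
noncomputable def moving (S : Finset (MvPolynomial (Fin (r + 1)) R)) (l : Fin (r + 1) → R)
    (p : PrimeSpectrum R) : ℕ∞ :=
  ⨅ (c : ℕ) (_ : Moves S l (geo p) c c), (c : ℕ∞)

theorem moving_le (p : PrimeSpectrum R) (c : ℕ) :
    moving S l p ≤ c ↔ Moves S l (geo p) c c := by
  constructor
  · intro h
    by_contra hcon
    have h1 : ((c + 1 : ℕ) : ℕ∞) ≤ moving S l p := by
      refine le_iInf₂ fun d hd => ?_
      rw [Nat.cast_le]
      by_contra hlt
      exact hcon (hd.mono (by omega) (by omega))
    have h2 := h1.trans h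
    rw [Nat.cast_le] at h2
    omega
  · intro h
    exact iInf₂_le (f := fun (c : ℕ) (_ : Moves S l (geo p) c c) => (c : ℕ∞)) c h

/-- Over the complex numbers: finite-dimensionality and moving with bounded complexity. -/
theorem finite_iff_moves [Countable R] (hS : ∀ P ∈ S, ∃ d : ℕ, P.IsHomogeneous d) (t : R →+* ℂ)
    (hX : IsVariety (Member S t) 2) (hl : ∃ v ∈ Cone S t, ∑ a, t (l a) * v a ≠ 0) :
    (∃ c : ℕ, ∀ n, dn (Member S t) 2 n ≤ c) ↔ ∃ c, Moves S l t c c := by
  rw [finite_iff hS hX hl]
  constructor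
  · rintro ⟨n, hn⟩
    by_contra hcon
    push Not at hcon
    obtain ⟨k, _, _, κ, π, hker, hπ, rfl⟩ := exists_power_of_ker t
    have h1 : ∀ᶠ j in (hyperfilter ℕ : Filter ℕ), ¬ Moves S l κ n j := by
      refine Nat.hyperfilter_le_atTop ?_
      filter_upwards [eventually_ge_atTop n] with j hj h2
      exact hcon j ((moves_elementary S l j j).of_ker_eq hker (h2.mono hj le_rfl))
    obtain ⟨x, hx, hno⟩ := not_moves_of_eventually hπ (fun _ => κ) n id h1
    obtain ⟨y, hy, hy0, c, hR⟩ := hn x hx
    exact hno y hy hy0 c (Nat.hyperfilter_le_atTop (eventually_ge_atTop c)) hR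
  · rintro ⟨c, hc⟩
    exact ⟨c, fun z hz => by
      obtain ⟨y, hy, hy0, hR⟩ := hc z hz
      exact ⟨y, hy, hy0, c, hR⟩⟩

end Pool.Agent.H837.SP
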