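import Pool.Agent.H837.SP.Main
import Pool.Agent.H837.SP.Inv

/-!
# Specialisation of rational equivalences between geometric points of the spectrum
-/

set_option autoImplicit false

namespace Pool.Agent.H837.SP

open MvPolynomial Pool.Agent.H837.UF Pool.Agent.H837.QB

/-- The residue field of a valuation ring of an algebraically closed field. -/
theorem residue_isAlgClosed {K : Type} [Field K] [IsAlgClosed K] (O : ValuationSubring K) :
    IsAlgClosed (IsLocalRing.ResidueField O) := by
  apply IsAlgClosed.of_exists_root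
  intro q hq hirr
  obtain ⟨P, hP, hPd, hPm⟩ := Polynomial.lifts_and_natDegree_eq_and_monic
    (f := IsLocalRing.residue O) (p := q)
    (by
      rw [Polynomial.lifts_iff_coeff_lifts]
      intro n
      obtain ⟨a, ha⟩ := IsLocalRing.residue_surjective (q.coeff n)
      exact ⟨a, ha⟩) hq
  have hd : P.natDegree ≠ 0 := by
    rw [hPd]
    exact hirr.natDegree_pos.ne'
  obtain ⟨x, hx⟩ := IsAlgClosed.exists_root (P.map (algebraMap O K)) (by
    apply Polynomial.degree_ne_of_natDegree_ne
    rw [hPm.natDegree_map]
    exact hd)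
  have hint : IsIntegral O x := ⟨P, hPm, by
    rw [← Polynomial.eval_map]
    exact hx⟩
  obtain ⟨y, hy⟩ := (IsIntegrallyClosed.isIntegral_iff (R := O) (K := K)).mp hint
  refine ⟨IsLocalRing.residue O y, ?_⟩
  have h1 : P.eval y = 0 := by
    have hinj : Function.Injective (algebraMap O K) := Subtype.coe_injective
    apply hinj
    rw [(algebraMap O K).map_zero, ← Polynomial.eval₂_at_apply, hy, ← Polynomial.eval_map]
    exact hx
  rw [← hP, Polynomial.eval_map, Polynomial.eval₂_at_apply, h1, map_zero]

variable {R : Type} [CommRing R] {r n : ℕ}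

/-- Existence of places. -/
theorem exists_place {K : Type} [Field K] (φ : R →+* K) (p : Ideal R) [p.IsPrime]
    (hp : ∀ a, φ a = 0 → a ∈ p) : ∃ (O : ValuationSubring K) (φ' : R →+* O),
      (algebraMap O K).comp φ' = φ ∧ ∀ a, IsLocalRing.residue O (φ' a) = 0 ↔ a ∈ p := by
  have hunit : ∀ y : p.primeCompl, IsUnit (φ y) := fun y => by
    rw [isUnit_iff_ne_zero]
    intro h0
    exact y.2 (hp _ h0)
  obtain ⟨O, h, hloc⟩ := IsLocalRing.exists_factor_valuationRing
    (IsLocalization.lift (M := p.primeCompl) (S := Localization.AtPrime p) hunit)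
  let g : Localization.AtPrime p →+* O :=
    (IsLocalization.lift (M := p.primeCompl) (S := Localization.AtPrime p) hunit).codRestrict
      O.toSubring h
  have hg : IsLocalHom g := hloc
  refine ⟨O, g.comp (algebraMap R (Localization.AtPrime p)), ?_, fun a => ?_⟩
  · ext a
    show IsLocalization.lift (M := p.primeCompl) (S := Localization.AtPrime p) hunit
      (algebraMap R (Localization.AtPrime p) a) = φ a
    exact IsLocalization.lift_eq _ _
  · rw [IsLocalRing.residue_eq_zero_iff, IsLocalRing.mem_maximalIdeal, mem_nonunits_iff,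
      RingHom.comp_apply, isUnit_map_iff, IsLocalization.AtPrime.isUnit_to_map_iff
        (Localization.AtPrime p) p a]
    show ¬ (a ∉ p) ↔ a ∈ p
    exact not_not

/-- **Specialisation with explicit complexity**, for homomorphisms from a countable ring. -/
theorem ratEq_specialise [Countable R] {S : Finset (MvPolynomial (Fin (r + 1)) R)}
    (hS : ∀ P ∈ S, ∃ d : ℕ, P.IsHomogeneous d) {K L : Type} [Field K] [Field L] [IsAlgClosed K]
    [IsAlgClosed L] {φ : R →+* K} {ψ : R →+* L} (hker : ∀ a, φ a = 0 → ψ a = 0) {c : ℕ}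
    {x y : Fin (n + 1) → Fin (r + 1) → R} (hx : ∀ i, image ψ x i ≠ 0) (hy : ∀ i, image ψ y i ≠ 0)
    (hyV : ∀ i, image φ y i ∈ Cone S φ)
    (h : RatEq (Cone S φ) c (image φ x) (image φ y)) :
    RatEq (Cone S ψ) (c * (n + 1 + c + 1)) (image ψ x) (image ψ y) := by
  have hprime : (RingHom.ker ψ).IsPrime := RingHom.ker_isPrime ψ
  obtain ⟨O, φ', hφ', hres⟩ := exists_place φ (RingHom.ker ψ) hker
  have := residue_isAlgClosed O
  have : Infinite (IsLocalRing.ResidueField O) := IsAlgClosed.instInfinite
  have hred : Reduces O (IsLocalRing.residue O) (Cone S φ)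
      (Cone S ((IsLocalRing.residue O).comp φ')) := by
    have h1 := reduces_cone O (IsLocalRing.residue O) hS φ'
    rw [hφ'] at h1
    exact h1
  have hne : ∀ z : Fin (r + 1) → R, (fun a => ψ (z a)) ≠ 0 →
      (fun a => IsLocalRing.residue O (φ' (z a))) ≠ 0 := by
    intro z hz h0
    apply hz
    funext a
    have h1 := congrFun h0 a
    exact (hres (z a)).mp h1
  have hφz : ∀ (z : Fin (n + 1) → Fin (r + 1) → R),
      (fun i a => algebraMap O K (φ' (z i a))) = image φ z := by
    intro z
    funext i a
    exact RingHom.congr_fun hφ' (z i a)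
  have hyO : ∀ i, (fun a => algebraMap O K (φ' (y i a))) ∈ Cone S φ := by
    intro i
    have h1 : (fun a => algebraMap O K (φ' (y i a))) = image φ y i := congrFun (hφz y) i
    rw [h1]
    exact hyV i
  have hne0 : (Cone S ((IsLocalRing.residue O).comp φ')).Nonempty := by
    refine ⟨fun a => IsLocalRing.residue O (φ' (y 0 a)), ?_⟩
    refine hred 1 (fun a => φ' (y 0 a)) one_ne_zero ?_ (hne _ (hy 0))
    simp only [one_mul]
    exact hyO 0
  have h2 := ratEq_special O (IsLocalRing.residue O) IsLocalRing.residue_surjective hred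
    (fun v hv => hv.1) hne0 (fun v hv => hv.1) (x := fun i a => φ' (x i a))
    (y := fun i a => φ' (y i a)) (fun i => hne _ (hx i)) (fun i => hne _ (hy i)) hyO
    (c := c) (by
      rw [hφz, hφz]
      exact h)
  refine ratEq_of_ker_eq S (φ := (IsLocalRing.residue O).comp φ') ?_ _ x y h2
  ext a
  rw [RingHom.mem_ker, RingHom.mem_ker, RingHom.comp_apply, hres, RingHom.mem_ker]

end Pool.Agent.H837.SP
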