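import Pool.Agent.H837.QB.Fam3
import Pool.Graph.R_pool_sql_team_seeded_1acbe0a2.Y809.OD.Newton

/-!
# Reduction of Chow forms over a valuation ring
-/

set_option autoImplicit false

namespace Pool.Agent.H837.SP

open MvPolynomial Pool.Agent.H837.UF Pool.Agent.H837.QB

section Prim

variable {K : Type} [Field K] (O : ValuationSubring K) {κ : Type} [Field κ] (θ : O →+* κ)

theorem theta_eq_zero (hθ : Function.Surjective θ) (u : O) :
    θ u = 0 ↔ O.valuation (u : K) < 1 := by
  rw [← ValuationSubring.valuation_lt_one_iff, ← RingHom.mem_ker]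
  have := IsLocalRing.eq_maximalIdeal (RingHom.ker_isMaximal_of_surjective θ hθ)
  rw [this]

/-- the primitive part of a polynomial -/
theorem exists_prim {τ : Type} (q : MvPolynomial τ K) : ∃ (a : K) (h : MvPolynomial τ O),
    map θ h ≠ 0 ∧ q = C a * map (algebraMap O K) h := by
  classical
  by_cases hq : q = 0
  · exact ⟨0, 1, by rw [map_one]; exact one_ne_zero, by rw [hq, map_zero, zero_mul]⟩
  · obtain ⟨m0, hm0, hmax⟩ := Finset.exists_max_image q.support (fun m => O.valuation (coeff m q))
      (MvPolynomial.support_nonempty.2 hq)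
    set a : K := coeff m0 q with ha
    have ha0 : a ≠ 0 := MvPolynomial.mem_support_iff.1 hm0
    have hva : O.valuation a ≠ 0 := (Valuation.ne_zero_iff _).2 ha0
    have h1 : ∀ m, ∃ u : O, m ∈ q.support → (u : K) = coeff m q / a := by
      intro m
      by_cases hm : m ∈ q.support
      · have h2 : coeff m q / a ∈ O := by
          rw [← O.valuation_le_one_iff, map_div₀]
          exact div_le_one_of_le₀ (hmax m hm) zero_le
        exact ⟨⟨_, h2⟩, fun _ => rfl⟩
      · exact ⟨0, fun h => absurd h hm⟩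
    choose u hu using h1
    refine ⟨a, ∑ m ∈ q.support, monomial m (u m), ?_, ?_⟩
    · intro h0
      have h2 := congrArg (coeff m0) h0
      rw [map_sum, coeff_sum, Finset.sum_eq_single m0] at h2
      · rw [map_monomial, coeff_monomial, if_pos rfl, coeff_zero] at h2
        have h3 : u m0 = 1 := by
          apply Subtype.ext
          rw [hu m0 hm0, ← ha, div_self ha0]
          rfl
        rw [h3, map_one] at h2
        exact one_ne_zero h2
      · intro m _ hm
        rw [map_monomial, coeff_monomial, if_neg hm]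
      · intro h
        exact absurd hm0 h
    · rw [map_sum, Finset.mul_sum]
      conv_lhs => rw [q.as_sum]
      refine Finset.sum_congr rfl fun m hm => ?_
      rw [map_monomial, C_mul_monomial]
      congr 1
      show coeff m q = a * (u m : K)
      rw [hu m hm, mul_div_cancel₀ _ ha0]

theorem map_injective_O {τ : Type} : Function.Injective (map (σ := τ) (algebraMap O K)) :=
  MvPolynomial.map_injective _ (Subtype.coe_injective)

/-- the reductions of two primitive polynomials which are proportional are proportional -/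
theorem prim_unique {τ : Type} {f h : MvPolynomial τ O}
    (hf : map θ f ≠ 0) (hh : map θ h ≠ 0) {r a : K} (hr : r ≠ 0)
    (e : C r * map (algebraMap O K) f = C a * map (algebraMap O K) h) :
    a ≠ 0 ∧ ∃ d : κ, d ≠ 0 ∧ map θ f = C d * map θ h := by
  have hinj := map_injective_O O (τ := τ)
  have hf0 : f ≠ 0 := fun h' => hf (by rw [h', map_zero])
  have ha : a ≠ 0 := by
    rintro rfl
    rw [map_zero, zero_mul] at e
    rcases mul_eq_zero.1 e with h1 | h1
    · exact hr (C_injective _ _ (by rw [h1, map_zero]))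
    · exact hf0 (hinj (by rw [h1, map_zero]))
  refine ⟨ha, ?_⟩
  rcases O.mem_or_inv_mem (a / r) with hu | hu
  · have h1 : f = C (⟨a / r, hu⟩ : O) * h := by
      apply hinj
      rw [map_mul, map_C]
      show _ = C (a / r) * _
      have h2 : C r⁻¹ * (C r * map (algebraMap O K) f) =
          C r⁻¹ * (C a * map (algebraMap O K) h) := by rw [e]
      rw [← mul_assoc, ← C_mul, inv_mul_cancel₀ hr, C_1, one_mul, ← mul_assoc, ← C_mul] at h2
      rw [h2, div_eq_inv_mul]
    have h3 : map θ f = C (θ ⟨a / r, hu⟩) * map θ h := by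
      rw [h1, map_mul, map_C]
    refine ⟨_, fun h0 => hf ?_, h3⟩
    rw [h3, h0, map_zero, zero_mul]
  · rw [inv_div] at hu
    have h1 : h = C (⟨r / a, hu⟩ : O) * f := by
      apply hinj
      rw [map_mul, map_C]
      show _ = C (r / a) * _
      have h2 : C a⁻¹ * (C r * map (algebraMap O K) f) =
          C a⁻¹ * (C a * map (algebraMap O K) h) := by rw [e]
      rw [← mul_assoc (C a⁻¹) (C a), ← C_mul, inv_mul_cancel₀ ha, C_1, one_mul, ← mul_assoc,
        ← C_mul] at h2
      rw [← h2, div_eq_inv_mul]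
    have h3 : map θ h = C (θ ⟨r / a, hu⟩) * map θ f := by
      rw [h1, map_mul, map_C]
    have h4 : θ ⟨r / a, hu⟩ ≠ 0 := fun h0 => hh (by rw [h3, h0, map_zero, zero_mul])
    refine ⟨(θ ⟨r / a, hu⟩)⁻¹, inv_ne_zero h4, ?_⟩
    rw [h3, ← mul_assoc, ← C_mul, inv_mul_cancel₀ h4, C_1, one_mul]

/-- homogeneous coordinates in the valuation ring -/
theorem exists_prim_vec {τ : Type} [Finite τ] {v : τ → K} (hv : v ≠ 0) :
    ∃ (c : K) (u : τ → O), c ≠ 0 ∧ (∀ a, v a = c * (u a : K)) ∧ (fun a => θ (u a)) ≠ 0 := by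
  have : Nonempty τ := by
    by_contra hn
    rw [not_nonempty_iff] at hn
    exact hv (funext fun a => (hn.false a).elim)
  obtain ⟨b, hb⟩ := Finite.exists_max fun a => O.valuation (v a)
  have hvb : v b ≠ 0 := by
    intro h0
    apply hv
    funext a
    have h1 := hb a
    simp only [h0, map_zero] at h1
    exact (Valuation.zero_iff _).mp (le_antisymm h1 zero_le)
  have hm : ∀ a, v a / v b ∈ O := by
    intro a
    rw [← O.valuation_le_one_iff, map_div₀]
    exact div_le_one_of_le₀ (hb a) zero_le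
  refine ⟨v b, fun a => ⟨v a / v b, hm a⟩, hvb, fun a => ?_, fun h => ?_⟩
  · exact (mul_div_cancel₀ _ hvb).symm
  · have h1 := congrFun h b
    have h2 : (⟨v b / v b, hm b⟩ : O) = 1 := Subtype.ext (div_self hvb)
    simp only [Pi.zero_apply] at h1
    rw [h2, map_one] at h1
    exact one_ne_zero h1

end Prim

section Chow

theorem map_chow {A B : Type} [CommRing A] [CommRing B] {τ : Type} [Fintype τ] (f : A →+* B)
    {n : ℕ} (x : Fin n → τ → A) : map f (chow x) = chow fun i a => f (x i a) := by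
  rw [chow, chow, map_prod]
  refine Finset.prod_congr rfl fun i _ => ?_
  rw [lin, lin, map_sum]
  refine Finset.sum_congr rfl fun a _ => ?_
  rw [map_mul, map_C, map_X]

theorem chow_smul {A : Type} [CommRing A] {τ : Type} [Fintype τ] {n : ℕ} (c : Fin n → A)
    (x : Fin n → τ → A) : chow (fun i a => c i * x i a) = C (∏ i, c i) * chow x := by
  rw [chow, chow, map_prod, ← Finset.prod_mul_distrib]
  refine Finset.prod_congr rfl fun i _ => ?_
  rw [lin, lin, Finset.mul_sum]
  refine Finset.sum_congr rfl fun a _ => ?_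
  rw [C_mul, mul_assoc]

variable {K : Type} [Field K] {τ : Type} [Fintype τ] {V : Set (τ → K)}

/-- The form `f` is a multiple of the Chow form of an effective zero-cycle of degree `N`. -/
def IsChow (V : Set (τ → K)) (N : ℕ) (f : MvPolynomial τ K) : Prop :=
  ∃ (a : K) (z : Fin N → τ → K), (∀ i, z i ∈ V) ∧ f = C a * chow z

theorem IsChow.smul {N : ℕ} {f : MvPolynomial τ K} (h : IsChow V N f) (c : K) :
    IsChow V N (C c * f) := by
  obtain ⟨a, z, hz, rfl⟩ := h
  exact ⟨c * a, z, hz, by rw [C_mul, mul_assoc]⟩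

theorem IsChow.of_smul {N : ℕ} {f : MvPolynomial τ K} {c : K} (hc : c ≠ 0)
    (h : IsChow V N (C c * f)) : IsChow V N f := by
  have := h.smul c⁻¹
  rwa [← mul_assoc, ← C_mul, inv_mul_cancel₀ hc, C_1, one_mul] at this

theorem IsChow.mul {N M : ℕ} {f g : MvPolynomial τ K} (hf : IsChow V N f) (hg : IsChow V M g) :
    IsChow V (N + M) (f * g) := by
  obtain ⟨a, z, hz, rfl⟩ := hf
  obtain ⟨b, w, hw, rfl⟩ := hg
  refine ⟨a * b, Fin.append z w, fun i => ?_, ?_⟩
  · refine Fin.addCases (fun i => ?_) (fun i => ?_) i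
    · rw [Fin.append_left]
      exact hz i
    · rw [Fin.append_right]
      exact hw i
  · have h1 : chow (Fin.append z w) = chow z * chow w := by
      rw [chow, Fin.prod_univ_add]
      simp only [Fin.append_left, Fin.append_right]
      rfl
    rw [h1, C_mul]
    ring

theorem isChow_one : IsChow V 0 1 :=
  ⟨1, Fin.elim0, fun i => i.elim0, by rw [chow, Fin.prod_univ_zero, C_1, one_mul]⟩

/-- The forms `f` and `g` are the values at `0` and `∞` of a family of degree at most `d` whose members
are multiples of Chow forms of degree `N`. -/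
def Fam (V : Set (τ → K)) (N d : ℕ) (f g : MvPolynomial τ K) : Prop :=
  ∃ F : Polynomial (MvPolynomial τ K), F.natDegree ≤ d ∧ F.coeff 0 = f ∧ F.coeff d = g ∧
    ∀ s : K, IsChow V N (F.eval (C s))

theorem Fam.mul {N N' d d' : ℕ} {f g f' g' : MvPolynomial τ K} (h : Fam V N d f g)
    (h' : Fam V N' d' f' g') : Fam V (N + N') (d + d') (f * f') (g * g') := by
  obtain ⟨F, hd, h0, h1, hs⟩ := h
  obtain ⟨F', hd', h0', h1', hs'⟩ := h'
  refine ⟨F * F', ?_, ?_, ?_, fun s => ?_⟩
  · exact Polynomial.natDegree_mul_le.trans (add_le_add hd hd')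
  · rw [Polynomial.mul_coeff_zero, h0, h0']
  · rw [Polynomial.coeff_mul_add_eq_of_natDegree_le hd hd', h1, h1']
  · rw [Polynomial.eval_mul]
    exact (hs s).mul (hs' s)

theorem fam_const {N : ℕ} {f : MvPolynomial τ K} (h : IsChow V N f) : Fam V N 0 f f :=
  ⟨Polynomial.C f, by rw [Polynomial.natDegree_C], Polynomial.coeff_C_zero, Polynomial.coeff_C_zero,
    fun s => by rw [Polynomial.eval_C]; exact h⟩

theorem Fam.smul {N d : ℕ} {f g : MvPolynomial τ K} (h : Fam V N d f g) (c : K) :
    Fam V N d (C c * f) (C c * g) := by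
  obtain ⟨F, hd, h0, h1, hs⟩ := h
  refine ⟨Polynomial.C (C c) * F, ?_, ?_, ?_, fun s => ?_⟩
  · exact (Polynomial.natDegree_C_mul_le _ _).trans hd
  · rw [Polynomial.coeff_C_mul, h0]
  · rw [Polynomial.coeff_C_mul, h1]
  · rw [Polynomial.eval_mul, Polynomial.eval_C]
    exact (hs s).smul c

/-- The forms `f` and `g` of degree `N` are linked, up to nonzero factors, after multiplication by the
Chow form of a zero-cycle of degree `m`, by a family of degree at most `d`. -/
def Rel (V : Set (τ → K)) (N m d : ℕ) (f g : MvPolynomial τ K) : Prop :=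
  ∃ (p : MvPolynomial τ K) (a b : K), IsChow V m p ∧ p ≠ 0 ∧ a ≠ 0 ∧ b ≠ 0 ∧
    Fam V (N + m) d (C a * (f * p)) (C b * (g * p))

theorem rel_refl {N : ℕ} {f : MvPolynomial τ K} (h : IsChow V N f) : Rel V N 0 0 f f := by
  refine ⟨1, 1, 1, isChow_one, one_ne_zero, one_ne_zero, one_ne_zero, ?_⟩
  rw [mul_one, C_1, one_mul]
  exact fam_const h

theorem Rel.pad {N m d k : ℕ} {f g q : MvPolynomial τ K} (h : Rel V N m d f g)
    (hq : IsChow V k q) (hq0 : q ≠ 0) : Rel V N (m + k) d f g := by
  obtain ⟨p, a, b, hp, hp0, ha, hb, h⟩ := h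
  refine ⟨p * q, a, b, hp.mul hq, mul_ne_zero hp0 hq0, ha, hb, ?_⟩
  have h1 := h.mul (fam_const hq)
  have e1 : C a * (f * p) * q = C a * (f * (p * q)) := by ring
  have e2 : C b * (g * p) * q = C b * (g * (p * q)) := by ring
  rw [e1, e2, add_assoc] at h1
  exact h1

theorem Rel.trans {N m d m' d' : ℕ} {f g h : MvPolynomial τ K} (h1 : Rel V N m d f g)
    (h2 : Rel V N m' d' g h) (hg : IsChow V N g) (hg0 : g ≠ 0) :
    Rel V N (m + N + m') (d + d') f h := by
  obtain ⟨p, a, b, hp, hp0, ha, hb, h1⟩ := h1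
  obtain ⟨p', a', b', hp', hp0', ha', hb', h2⟩ := h2
  refine ⟨p * g * p', a * a', b * b', (hp.mul hg).mul hp', mul_ne_zero (mul_ne_zero hp0 hg0) hp0',
    mul_ne_zero ha ha', mul_ne_zero hb hb', ?_⟩
  have h3 := h1.mul h2
  have e1 : C a * (f * p) * (C a' * (g * p')) = C (a * a') * (f * (p * g * p')) := by
    rw [C_mul]
    ring
  have e2 : C b * (g * p) * (C b' * (h * p')) = C (b * b') * (h * (p * g * p')) := by
    rw [C_mul]
    ring
  have e3 : N + m + (N + m') = N + (m + N + m') := by ring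
  rw [e1, e2, e3] at h3
  exact h3

theorem Rel.smul_right {N m d : ℕ} {f g : MvPolynomial τ K} {c : K} (hc : c ≠ 0)
    (h : Rel V N m d f (C c * g)) : Rel V N m d f g := by
  obtain ⟨p, a, b, hp, hp0, ha, hb, h⟩ := h
  refine ⟨p, a, b * c, hp, hp0, ha, mul_ne_zero hb hc, ?_⟩
  have e1 : C b * (C c * g * p) = C (b * c) * (g * p) := by
    rw [C_mul]
    ring
  rw [e1] at h
  exact h

theorem Rel.smul_left {N m d : ℕ} {f g : MvPolynomial τ K} {c : K} (hc : c ≠ 0)
    (h : Rel V N m d (C c * f) g) : Rel V N m d f g := by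
  obtain ⟨p, a, b, hp, hp0, ha, hb, h⟩ := h
  refine ⟨p, a * c, b, hp, hp0, mul_ne_zero ha hc, hb, ?_⟩
  have e1 : C a * (C c * f * p) = C (a * c) * (f * p) := by
    rw [C_mul]
    ring
  rw [e1] at h
  exact h

end Chow

end Pool.Agent.H837.SP
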