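import Pool.Agent.H837.SP.Prim

/-!
# Specialisation of families of Chow forms over a valuation ring
-/

set_option autoImplicit false

namespace Pool.Agent.H837.SP

open MvPolynomial Pool.Agent.H837.UF Pool.Agent.H837.QB

section Reduce

variable {K : Type} [Field K] (O : ValuationSubring K) {κ : Type} [Field κ] (θ : O →+* κ)
  {τ : Type} [Fintype τ] (V : Set (τ → K)) (V' : Set (τ → κ))

/-- The reductions of the vectors of homogeneous coordinates in `V` are in `V'`. -/
def Reduces : Prop := ∀ (c : K) (u : τ → O), c ≠ 0 → (fun a => c * (u a : K)) ∈ V →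
  (fun a => θ (u a)) ≠ 0 → (fun a => θ (u a)) ∈ V'

theorem reduces_cone {R : Type} [CommRing R] {r : ℕ} {S : Finset (MvPolynomial (Fin (r + 1)) R)}
    (hS : ∀ P ∈ S, ∃ d : ℕ, P.IsHomogeneous d) (φ : R →+* O) :
    Reduces O θ (Cone S ((algebraMap O K).comp φ)) (Cone S (θ.comp φ)) := by
  intro c u hc hu hne
  have h1 := cone_smul hS ((algebraMap O K).comp φ) c⁻¹ _ (inv_ne_zero hc) hu
  have h2 : (c⁻¹ • fun a => c * (u a : K)) = fun a => algebraMap O K (u a) := by
    funext a
    show c⁻¹ * (c * (u a : K)) = (u a : K)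
    rw [← mul_assoc, inv_mul_cancel₀ hc, one_mul]
  rw [h2] at h1
  refine ⟨hne, fun P hP => ?_⟩
  have h3 := h1.2 P hP
  rw [← MvPolynomial.map_map, eval_map] at h3
  have h4 : eval u (map φ P) = 0 := by
    have hinj : Function.Injective (algebraMap O K) := Subtype.coe_injective
    apply hinj
    rw [(algebraMap O K).map_zero, ← h3]
    exact eval₂_comp (algebraMap O K) u (map φ P)
  rw [← MvPolynomial.map_map, eval_map]
  have h5 : eval₂ θ (fun a => θ (u a)) (map φ P) = θ (eval u (map φ P)) :=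
    (eval₂_comp θ u (map φ P)).symm
  rw [h5, h4, map_zero]

variable {V V'}

theorem lin_ne_zero' {A : Type} [CommRing A] {v : τ → A} (hv : v ≠ 0) : lin v ≠ 0 := by
  classical
  intro h
  apply hv
  funext b
  have h1 := congrArg (coeff (Finsupp.single b 1)) h
  rw [lin, coeff_sum, Finset.sum_eq_single b] at h1
  · rw [coeff_C_mul, coeff_X, if_pos rfl, mul_one, coeff_zero] at h1
    exact h1
  · intro a _ hab
    rw [coeff_C_mul, coeff_X, if_neg, mul_zero]
    intro h2
    exact hab (Finsupp.single_left_injective one_ne_zero h2)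
  · intro h2
    exact absurd (Finset.mem_univ _) h2

theorem chow_ne_zero' {k : Type} [Field k] {n : ℕ} {x : Fin n → τ → k} (h : ∀ i, x i ≠ 0) :
    chow x ≠ 0 :=
  Finset.prod_ne_zero_iff.mpr fun i _ => lin_ne_zero' (h i)

/-- Reduction of multiples of Chow forms. -/
theorem isChow_special (hθ : Function.Surjective θ) (hV : Reduces O θ V V') (hV0 : ∀ v ∈ V, v ≠ 0)
    {N : ℕ} {G : MvPolynomial τ O} (h : IsChow V N (map (algebraMap O K) G)) :
    IsChow V' N (map θ G) := by
  obtain ⟨a, z, hz, haz⟩ := h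
  choose c u hc hu hne using fun i => exists_prim_vec O θ (hV0 _ (hz i))
  have hz' : z = fun i a => c i * algebraMap O K (u i a) := by
    funext i a
    exact hu i a
  have hchow : chow z = C (∏ i, c i) * map (algebraMap O K) (chow u) := by
    rw [map_chow, ← chow_smul, ← hz']
  rw [hchow, ← mul_assoc, ← C_mul] at haz
  generalize a * ∏ i, c i = a' at haz
  have hinj := map_injective_O O (τ := τ)
  have hmem : ∀ i, (fun a => θ (u i a)) ∈ V' := by
    intro i
    refine hV (c i) (u i) (hc i) ?_ (hne i)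
    have h1 : (fun a => c i * ((u i a : O) : K)) = z i := by
      rw [hz']
      rfl
    rw [h1]
    exact hz i
  have hne' : map θ (chow u) ≠ 0 := by
    rw [map_chow]
    exact chow_ne_zero' hne
  by_cases hmem' : a' ∈ O
  · refine ⟨θ ⟨a', hmem'⟩, fun i a => θ (u i a), hmem, ?_⟩
    have h1 : G = C (⟨a', hmem'⟩ : O) * chow u := by
      apply hinj
      rw [haz, map_mul, map_C]
      rfl
    rw [h1, map_mul, map_C, map_chow]
  · exfalso
    have hinv : a'⁻¹ ∈ O := (O.mem_or_inv_mem a').resolve_left hmem'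
    have ha0 : a' ≠ 0 := by
      intro h0
      rw [h0] at hmem'
      exact hmem' O.zero_mem
    have h1 : C (⟨a'⁻¹, hinv⟩ : O) * G = chow u := by
      apply hinj
      rw [map_mul, map_C, haz, ← mul_assoc]
      have h2 : C (algebraMap O K ⟨a'⁻¹, hinv⟩) * C a' = (1 : MvPolynomial τ K) := by
        rw [← C_mul]
        have h3 : algebraMap O K ⟨a'⁻¹, hinv⟩ * a' = 1 := inv_mul_cancel₀ ha0
        rw [h3, C_1]
      rw [h2, one_mul]
    have h2 : θ ⟨a'⁻¹, hinv⟩ = 0 := by
      rw [theta_eq_zero O θ hθ]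
      show O.valuation a'⁻¹ < 1
      have h3 : 1 < O.valuation a' := by
        rw [← not_le, O.valuation_le_one_iff]
        exact hmem'
      rw [map_inv₀]
      exact inv_lt_one_of_one_lt₀ h3
    apply hne'
    rw [← h1, map_mul, map_C, h2, map_zero, zero_mul]

/-- A family after scaling of the parameter. -/
theorem scaled (hθ : Function.Surjective θ) (hV : Reduces O θ V V') (hV0 : ∀ v ∈ V, v ≠ 0)
    {F : Polynomial (MvPolynomial τ K)} {d N : ℕ} (hd : F.natDegree ≤ d)
    (hF : ∀ s : K, IsChow V N (F.eval (C s))) {α : ℕ → K} {h : ℕ → MvPolynomial τ O}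
    (hα : ∀ i, F.coeff i = C (α i) * map (algebraMap O K) (h i)) {c : K} (hc : c ≠ 0) {j : ℕ}
    (hj : α j ≠ 0) (hle : ∀ i, O.valuation c ^ i * O.valuation (α i) ≤
      O.valuation c ^ j * O.valuation (α j)) :
    ∃ u : ℕ → O, (∀ i, (u i : K) = c ^ i * α i / (c ^ j * α j)) ∧ ∀ s : κ,
      IsChow V' N (∑ i ∈ Finset.range (d + 1), C (θ (u i) * s ^ i) * map θ (h i)) := by
  have h0 : c ^ j * α j ≠ 0 := mul_ne_zero (pow_ne_zero _ hc) hj
  have hu : ∀ i, c ^ i * α i / (c ^ j * α j) ∈ O := by
    intro i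
    rw [← O.valuation_le_one_iff, map_div₀]
    refine div_le_one_of_le₀ ?_ zero_le
    rw [map_mul, map_mul, map_pow, map_pow]
    exact hle i
  refine ⟨fun i => ⟨_, hu i⟩, fun i => rfl, fun s => ?_⟩
  obtain ⟨t, rfl⟩ := hθ s
  have h1 := hF (c * (t : K))
  have h2 : F.eval (C (c * (t : K))) = C (c ^ j * α j) * map (algebraMap O K)
      (∑ i ∈ Finset.range (d + 1), C ((⟨_, hu i⟩ : O) * t ^ i) * h i) := by
    rw [Polynomial.eval_eq_sum_range' (Nat.lt_succ_of_le hd), map_sum, Finset.mul_sum]
    refine Finset.sum_congr rfl fun i _ => ?_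
    have e1 : map (algebraMap O K) (C ((⟨_, hu i⟩ : O) * t ^ i) * h i) =
        C (algebraMap O K ((⟨_, hu i⟩ : O) * t ^ i)) * map (algebraMap O K) (h i) := by
      rw [(map (algebraMap O K)).map_mul, map_C]
    rw [hα, e1, ← mul_assoc, ← C_mul, ← C_pow, mul_right_comm, ← C_mul]
    congr 2
    rw [(algebraMap O K).map_mul, (algebraMap O K).map_pow]
    show α i * (c * (t : K)) ^ i = c ^ j * α j * (c ^ i * α i / (c ^ j * α j) * (t : K) ^ i)
    rw [← mul_assoc, mul_div_cancel₀ _ h0, mul_pow]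
    ring
  rw [h2] at h1
  have h3 := isChow_special O θ hθ hV hV0 (h1.of_smul h0)
  rw [map_sum] at h3
  have h4 : (∑ i ∈ Finset.range (d + 1), map θ (C ((⟨_, hu i⟩ : O) * t ^ i) * h i)) =
      ∑ i ∈ Finset.range (d + 1), C (θ (⟨_, hu i⟩ : O) * θ t ^ i) * map θ (h i) := by
    refine Finset.sum_congr rfl fun i _ => ?_
    rw [map_mul, map_C, map_mul, map_pow]
  rw [h4] at h3
  exact h3

theorem valuation_quot {c : K} {α : ℕ → K} {i j : ℕ} :
    O.valuation (c ^ i * α i / (c ^ j * α j)) =
      (O.valuation c ^ i * O.valuation (α i)) / (O.valuation c ^ j * O.valuation (α j)) := by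
  rw [map_div₀, map_mul, map_mul, map_pow, map_pow]

theorem theta_u_eq_zero (hθ : Function.Surjective θ) {c : K} {α : ℕ → K} {i j : ℕ} (hc : c ≠ 0)
    (hj : α j ≠ 0) {u : O} (hu : (u : K) = c ^ i * α i / (c ^ j * α j)) :
    θ u = 0 ↔ O.valuation c ^ i * O.valuation (α i) < O.valuation c ^ j * O.valuation (α j) := by
  have h0 : 0 < O.valuation c ^ j * O.valuation (α j) :=
    zero_lt_iff.2 (mul_ne_zero (pow_ne_zero _ ((Valuation.ne_zero_iff _).2 hc))
      ((Valuation.ne_zero_iff _).2 hj))
  rw [theta_eq_zero O θ hθ, hu, valuation_quot O, div_lt_one₀ h0]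

/-- A vertex of the Newton polygon. -/
theorem vertex (hθ : Function.Surjective θ) (hV : Reduces O θ V V') (hV0 : ∀ v ∈ V, v ≠ 0)
    {F : Polynomial (MvPolynomial τ K)} {d N : ℕ} (hd : F.natDegree ≤ d)
    (hF : ∀ s : K, IsChow V N (F.eval (C s))) {α : ℕ → K} {h : ℕ → MvPolynomial τ O}
    (hα : ∀ i, F.coeff i = C (α i) * map (algebraMap O K) (h i)) {c : K} (hc : c ≠ 0) {j : ℕ}
    (hj : α j ≠ 0) (hjd : j ≤ d) (hlt : ∀ i, i ≠ j → O.valuation c ^ i * O.valuation (α i) <
      O.valuation c ^ j * O.valuation (α j)) : IsChow V' N (map θ (h j)) := by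
  obtain ⟨u, hu, hs⟩ := scaled O θ hθ hV hV0 hd hF hα hc hj (fun i => by
    by_cases hij : i = j
    · rw [hij]
    · exact (hlt i hij).le)
  have h1 := hs 1
  rw [Finset.sum_eq_single j] at h1
  · have h2 : u j = 1 := by
      apply Subtype.ext
      rw [hu j, div_self (mul_ne_zero (pow_ne_zero _ hc) hj)]
      rfl
    rw [h2, map_one, one_pow, mul_one, C_1, one_mul] at h1
    exact h1
  · intro i _ hij
    rw [(theta_u_eq_zero O θ hθ hc hj (hu i)).2 (hlt i hij), zero_mul, map_zero, zero_mul]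
  · intro h2
    exact absurd (Finset.mem_range.2 (Nat.lt_succ_of_le hjd)) h2

open Pool.Agent.Y148.OD in
/-- A side of the Newton polygon. -/
theorem side (hθ : Function.Surjective θ) (hV : Reduces O θ V V') (hV0 : ∀ v ∈ V, v ≠ 0)
    {F : Polynomial (MvPolynomial τ K)} {d N : ℕ} (hd : F.natDegree ≤ d)
    (hF : ∀ s : K, IsChow V N (F.eval (C s))) {α : ℕ → K} {h : ℕ → MvPolynomial τ O}
    (hα : ∀ i, F.coeff i = C (α i) * map (algebraMap O K) (h i)) {j j' : ℕ} (hj'd : j' ≤ d)
    (hst : Step O.valuation (fun i => O.valuation (α i)) j j') (hvj : IsChow V' N (map θ (h j))) :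
    ∃ b : κ, b ≠ 0 ∧ Fam V' N (j' - j) (map θ (h j)) (C b * map θ (h j')) := by
  obtain ⟨hjj', c, hc, heq, hwj, hle, hlt⟩ := hst
  simp only at heq hwj hle hlt
  have hj : α j ≠ 0 := (Valuation.ne_zero_iff _).1 hwj
  obtain ⟨u, hu, hs⟩ := scaled O θ hθ hV hV0 hd hF hα hc hj hle
  have huj : u j = 1 := by
    apply Subtype.ext
    rw [hu j, div_self (mul_ne_zero (pow_ne_zero _ hc) hj)]
    rfl
  have huj' : θ (u j') ≠ 0 := by
    intro h0
    rw [theta_u_eq_zero O θ hθ hc hj (hu j')] at h0
    exact absurd heq h0.ne'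
  have hout : ∀ i, i < j ∨ j' < i → θ (u i) = 0 := fun i hi =>
    (theta_u_eq_zero O θ hθ hc hj (hu i)).2 (hlt i hi)
  set H : Polynomial (MvPolynomial τ κ) :=
    ∑ i ∈ Finset.range (j' - j + 1), Polynomial.C (C (θ (u (j + i))) * map θ (h (j + i))) *
      Polynomial.X ^ i with hH
  have hcoeff : ∀ i ≤ j' - j, H.coeff i = C (θ (u (j + i))) * map θ (h (j + i)) := by
    intro i hi
    simp only [hH, Polynomial.finsetSum_coeff, Polynomial.coeff_C_mul, Polynomial.coeff_X_pow,
      mul_ite, mul_one, mul_zero]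
    rw [Finset.sum_eq_single i]
    · rw [if_pos rfl]
    · intro b _ hb
      rw [if_neg (Ne.symm hb)]
    · intro h2
      exact absurd (Finset.mem_range.2 (Nat.lt_succ_of_le hi)) h2
  refine ⟨θ (u j'), huj', H, ?_, ?_, ?_, fun s => ?_⟩
  · refine Polynomial.natDegree_sum_le_of_forall_le _ _ fun i hi => ?_
    refine (Polynomial.natDegree_C_mul_X_pow_le _ _).trans ?_
    exact Nat.le_of_lt_succ (Finset.mem_range.1 hi)
  · rw [hcoeff 0 (Nat.zero_le _), add_zero, huj, map_one, C_1, one_mul]
  · rw [hcoeff _ le_rfl]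
    have : j + (j' - j) = j' := by omega
    rw [this]
  · by_cases hs0 : s = 0
    · have h1 : H.eval (C s) = map θ (h j) := by
        rw [hs0, C_0, ← Polynomial.coeff_zero_eq_eval_zero, hcoeff 0 (Nat.zero_le _), add_zero, huj,
          map_one, C_1, one_mul]
      rw [h1]
      exact hvj
    · have h1 : C (s ^ j) * H.eval (C s) =
          ∑ i ∈ Finset.range (d + 1), C (θ (u i) * s ^ i) * map θ (h i) := by
        rw [hH, Polynomial.eval_finsetSum, Finset.mul_sum]
        have h2 : ∑ i ∈ Finset.range (d + 1), C (θ (u i) * s ^ i) * map θ (h i) =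
            ∑ i ∈ (Finset.range (j' - j + 1)).image (fun i => j + i),
              C (θ (u i) * s ^ i) * map θ (h i) := by
          symm
          refine Finset.sum_subset ?_ ?_
          · intro i hi
            obtain ⟨k, hk, rfl⟩ := Finset.mem_image.1 hi
            rw [Finset.mem_range] at hk ⊢
            omega
          · intro i _ hi
            rw [hout i, zero_mul, map_zero, zero_mul]
            by_contra hcon
            push Not at hcon
            apply hi
            rw [Finset.mem_image]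
            refine ⟨i - j, Finset.mem_range.2 ?_, ?_⟩
            · omega
            · show j + (i - j) = i
              omega
        rw [h2, Finset.sum_image (fun a _ b _ hab => by
          simpa using hab)]
        refine Finset.sum_congr rfl fun i _ => ?_
        rw [Polynomial.eval_mul, Polynomial.eval_C, Polynomial.eval_pow, Polynomial.eval_X, ← C_pow,
          mul_right_comm, ← C_mul, ← mul_assoc, ← C_mul]
        congr 2
        rw [pow_add]
        ring
      have h3 := hs s
      rw [← h1] at h3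
      exact h3.of_smul (pow_ne_zero _ hs0)

end Reduce

end Pool.Agent.H837.SP
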