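import Pool.Agent.H837.SP.MovesEl

/-!
# Bloch's conjecture in families of surfaces
-/

set_option autoImplicit false

namespace Pool.Agent.H837.SP

open MvPolynomial Pool.Agent.H837.UF Pool.Agent.H837.QB Pool.Agent.Y148.OD
open Topology (IsConstructible)

variable {R : Type} [CommRing R] {r : ℕ} {S : Finset (MvPolynomial (Fin (r + 1)) R)}
  {l : Fin (r + 1) → R}

/-- The point of the spectrum of `R` given by a homomorphism to a field. -/
def pt {K : Type} [Field K] (φ : R →+* K) : PrimeSpectrum R := ⟨RingHom.ker φ, RingHom.ker_isPrime φ⟩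

/-- The forms in `S` are homogeneous, and all complex members of the family over `R` given by them are
irreducible projective surfaces which are not contained in the hyperplane `∑ l a x_a = 0`. -/
structure SurfaceFamily (S : Finset (MvPolynomial (Fin (r + 1)) R)) (l : Fin (r + 1) → R) : Prop where
  homogeneous : ∀ P ∈ S, ∃ d : ℕ, P.IsHomogeneous d
  surface : ∀ t : R →+* ℂ, IsVariety (Member S t) 2
  hyperplane : ∀ t : R →+* ℂ, ∃ v ∈ Cone S t, ∑ a, t (l a) * v a ≠ 0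

theorem moves_iff_moving {K : Type} [Field K] [IsAlgClosed K] (φ : R →+* K) (c : ℕ) :
    Moves S l φ c c ↔ moving S l (pt φ) ≤ c := by
  rw [moving_le]
  exact (moves_elementary S l c c).mem_locus (p := pt φ) rfl

theorem locus_moves (c : ℕ) :
    Locus (R := R) (fun _ _ φ => Moves S l φ c c) = {p | moving S l p ≤ c} := by
  ext p
  exact (moving_le p c).symm

theorem moving_ne_top (p : PrimeSpectrum R) :
    moving S l p ≠ ⊤ ↔ ∃ c : ℕ, moving S l p ≤ c := by
  constructor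
  · intro h
    obtain ⟨c, hc⟩ := ENat.ne_top_iff_exists.mp h
    exact ⟨c, hc.symm.le⟩
  · rintro ⟨c, hc⟩ h
    rw [h, top_le_iff] at hc
    exact ENat.natCast_ne_top c hc

theorem surface_finite_iff [Algebra.FiniteType ℤ R] (h : SurfaceFamily S l) (t : R →+* ℂ) :
    (∃ c : ℕ, ∀ n, dn (Member S t) 2 n ≤ c) ↔ moving S l (pt t) ≠ ⊤ := by
  have hRc : Countable R := countable_of_finiteType
  rw [finite_iff_moves h.homogeneous t (h.surface t) (h.hyperplane t), moving_ne_top]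
  exact exists_congr fun c => moves_iff_moving t c

theorem surface_tfae [Algebra.FiniteType ℤ R] (h : SurfaceFamily S l) :
    [∀ t : R →+* ℂ, ∃ c : ℕ, ∀ n, dn (Member S t) 2 n ≤ c,
     ∃ c : ℕ, ∀ t : R →+* ℂ, Moves S l t c c,
     ∃ c N : ℕ, N ≠ 0 ∧ ∀ (K : Type) [Field K] [IsAlgClosed K] (t : R →+* K), (N : K) ≠ 0 →
       Moves S l t c c,
     ∃ c ℓ₀ : ℕ, ∀ (ℓ : ℕ) [Fact ℓ.Prime], ℓ₀ ≤ ℓ →
       ∀ t : R →+* AlgebraicClosure (ZMod ℓ), Moves S l t c c,
     ∃ c : ℕ, ∀ ℓ₀ : ℕ, ∃ (ℓ : ℕ) (_ : Fact ℓ.Prime), ℓ₀ ≤ ℓ ∧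
       ∀ t : R →+* AlgebraicClosure (ZMod ℓ), Moves S l t c c].TFAE := by
  have hRc : Countable R := countable_of_finiteType
  have h1 := uniform_tfae (R := R) (Q := fun c _ _ φ => Moves S l φ c c)
    (fun c => moves_elementary S l c c) (fun c c' hcc K _ φ hm => hm.mono hcc hcc)
  have h2 : (∀ t : R →+* ℂ, ∃ c, Moves S l t c c) ↔
      ∀ t : R →+* ℂ, ∃ c : ℕ, ∀ n, dn (Member S t) 2 n ≤ c :=
    forall_congr' fun t =>
      (finite_iff_moves h.homogeneous t (h.surface t) (h.hyperplane t)).symm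
  rw [h2] at h1
  exact h1

theorem closure_moving (hS : ∀ P ∈ S, ∃ d : ℕ, P.IsHomogeneous d) (hL : LiftsPoints S) (c : ℕ)
    (p : PrimeSpectrum R) (hp : p ∈ closure {p | moving S l p ≤ c}) :
    moving S l p ≤ (2 * c * (c + 1) : ℕ) := by
  rw [← locus_moves] at hp
  obtain ⟨K, _, _, φ, hker, hm⟩ := (moves_elementary S l c c).closure hp
  have h1 := moves_specialise hS hL (φ := φ) (ψ := geo p)
    (fun a ha => (geo_eq_zero p a).mpr (hker a ha)) hm
  rw [moving_le]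
  refine h1.mono ?_ (le_of_eq (by ring))
  calc c = c * 1 := (mul_one c).symm
    _ ≤ c * (2 * (c + 1)) := Nat.mul_le_mul_left _ (by omega)
    _ = 2 * c * (c + 1) := by ring

/-- The results for families over finitely generated rings. -/
def InFamilies : Prop := ∀ (R : Type) [CommRing R] [Algebra.FiniteType ℤ R] (r : ℕ)
  (S : Finset (MvPolynomial (Fin (r + 1)) R)) (l : Fin (r + 1) → R), SurfaceFamily S l →
    [∀ t : R →+* ℂ, ∃ c : ℕ, ∀ n, dn (Member S t) 2 n ≤ c,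
     ∃ c : ℕ, ∀ t : R →+* ℂ, Moves S l t c c,
     ∃ c N : ℕ, N ≠ 0 ∧ ∀ (K : Type) [Field K] [IsAlgClosed K] (t : R →+* K), (N : K) ≠ 0 →
       Moves S l t c c,
     ∃ c ℓ₀ : ℕ, ∀ (ℓ : ℕ) [Fact ℓ.Prime], ℓ₀ ≤ ℓ →
       ∀ t : R →+* AlgebraicClosure (ZMod ℓ), Moves S l t c c,
     ∃ c : ℕ, ∀ ℓ₀ : ℕ, ∃ (ℓ : ℕ) (_ : Fact ℓ.Prime), ℓ₀ ≤ ℓ ∧
       ∀ t : R →+* AlgebraicClosure (ZMod ℓ), Moves S l t c c].TFAE ∧
    ∀ t : R →+* ℂ, ((∃ c : ℕ, ∀ n, dn (Member S t) 2 n ≤ c) ↔ moving S l (pt t) ≠ ⊤)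

/-- The number `moving p` as a function on the spectrum of a ring. -/
def OnSpectrum : Prop := ∀ (R : Type) [CommRing R] (r : ℕ)
  (S : Finset (MvPolynomial (Fin (r + 1)) R)) (l : Fin (r + 1) → R),
    (∀ (K : Type) [Field K] [IsAlgClosed K] (t : R →+* K) (c : ℕ),
      Moves S l t c c ↔ moving S l (pt t) ≤ c) ∧
    (IsNoetherianRing R → ∀ c : ℕ, IsConstructible {p | moving S l p ≤ c}) ∧
    (IsJacobsonRing R → ∀ (c : ℕ) (p : PrimeSpectrum R), moving S l p ≤ c ↔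
      p ∈ closure {q : PrimeSpectrum R | q.asIdeal.IsMaximal ∧ p ≤ q ∧ moving S l q ≤ c}) ∧
    ((∀ P ∈ S, ∃ d : ℕ, P.IsHomogeneous d) → LiftsPoints S → ∀ (c : ℕ),
      ∀ p ∈ closure {p | moving S l p ≤ c}, moving S l p ≤ (2 * c * (c + 1) : ℕ))

theorem inFamilies : InFamilies := fun _ _ _ _ _ _ h => ⟨surface_tfae h, surface_finite_iff h⟩

theorem onSpectrum : OnSpectrum := by
  intro R _ r S l
  refine ⟨fun K _ _ t c => moves_iff_moving t c, fun _ c => ?_, fun _ c p => ?_,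
    fun hS hL c p hp => closure_moving hS hL c p hp⟩
  · rw [← locus_moves]
    exact (moves_elementary S l c c).isConstructible
  · have h1 := (moves_elementary S l c c).jacobson p
    rw [locus_moves] at h1
    exact h1

end Pool.Agent.H837.SP
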