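import Pool.Agent.H837.SP.Elem

/-!
# Uniformity of elementary properties
-/

set_option autoImplicit false

namespace Pool.Agent.H837.SP

open Pool.Agent.H837.UF Pool.Agent.H837.QB Cardinal
open Filter hiding map
open Topology (IsConstructible)

variable {R : Type} [CommRing R] {Q : ℕ → ∀ (K : Type) [Field K], (R →+* K) → Prop}

/-- If one of the properties `Q c` is true at each point of characteristic zero, then one of them is true
at all points outside finitely many characteristics. -/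
theorem uniform_of_forall [IsNoetherianRing R] (hQ : ∀ c, Elementary (Q c))
    (hmono : ∀ c c', c ≤ c' → ∀ (K : Type) [Field K] (φ : R →+* K), Q c K φ → Q c' K φ)
    (h : ∀ p : PrimeSpectrum R, (∀ N : ℕ, N ≠ 0 → (N : R) ∉ p.asIdeal) → ∃ c, p ∈ Locus (Q c)) :
    ∃ c N : ℕ, N ≠ 0 ∧ ∀ p : PrimeSpectrum R, (N : R) ∉ p.asIdeal → p ∈ Locus (Q c) := by
  have key : ∀ I : Ideal R, ∃ c N : ℕ, N ≠ 0 ∧ ∀ p : PrimeSpectrum R, I ≤ p.asIdeal →
      (N : R) ∉ p.asIdeal → p ∈ Locus (Q c) := by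
    intro I
    refine IsNoetherian.induction (R := R) (M := R)
      (P := fun I : Ideal R => ∃ c N : ℕ, N ≠ 0 ∧ ∀ p : PrimeSpectrum R, I ≤ p.asIdeal →
        (N : R) ∉ p.asIdeal → p ∈ Locus (Q c)) ?_ I
    intro (I : Ideal R) ih
    have hbig : ∀ h : R, h ∉ I → I < I ⊔ Ideal.span {h} := by
      intro h hh
      refine lt_of_le_of_ne le_sup_left fun heq => hh ?_
      rw [heq]
      exact Ideal.mem_sup_right (Ideal.mem_span_singleton_self h)
    have hmem : ∀ (h : R) (p : PrimeSpectrum R), I ≤ p.asIdeal → h ∈ p.asIdeal →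
        I ⊔ Ideal.span {h} ≤ p.asIdeal := fun h p h1 h2 =>
      sup_le h1 ((Ideal.span_singleton_le_iff_mem _).mpr h2)
    by_cases htop : I = ⊤
    · refine ⟨0, 1, one_ne_zero, fun p hp => ?_⟩
      rw [htop, top_le_iff] at hp
      exact absurd hp p.isPrime.ne_top
    by_cases hprime : I.IsPrime
    · let P : PrimeSpectrum R := ⟨I, hprime⟩
      by_cases hchar : ∀ N : ℕ, N ≠ 0 → (N : R) ∉ P.asIdeal
      · obtain ⟨c, hc⟩ := h P hchar
        obtain ⟨g, hg, hgq⟩ := ((hQ c).generic P).1 hc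
        obtain ⟨c', N, hN, hcN⟩ := ih _ (hbig g hg)
        refine ⟨max c c', N, hN, fun p hp hpN => ?_⟩
        by_cases hgp : g ∈ p.asIdeal
        · exact hmono _ _ (le_max_right _ _) _ _ (hcN p (hmem g p hp hgp) hpN)
        · exact hmono _ _ (le_max_left _ _) _ _ (hgq p hp hgp)
      · push Not at hchar
        obtain ⟨N, hN, hNP⟩ := hchar
        exact ⟨0, N, hN, fun p hp hpN => absurd (hp hNP) hpN⟩
    · rw [Ideal.isPrime_iff] at hprime
      push Not at hprime
      obtain ⟨a, b, hab, ha, hb⟩ := hprime htop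
      obtain ⟨c, N, hN, hcN⟩ := ih _ (hbig a ha)
      obtain ⟨c', N', hN', hcN'⟩ := ih _ (hbig b hb)
      refine ⟨max c c', N * N', mul_ne_zero hN hN', fun p hp hpN => ?_⟩
      rw [Nat.cast_mul] at hpN
      rcases p.isPrime.mem_or_mem (hp hab) with h2 | h2
      · exact hmono _ _ (le_max_left _ _) _ _ (hcN p (hmem a p hp h2)
          fun h3 => hpN (p.asIdeal.mul_mem_right _ h3))
      · exact hmono _ _ (le_max_right _ _) _ _ (hcN' p (hmem b p hp h2)
          fun h3 => hpN (p.asIdeal.mul_mem_left _ h3))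
  obtain ⟨c, N, hN, hcN⟩ := key ⊥
  exact ⟨c, N, hN, fun p hp => hcN p bot_le hp⟩

/-- If one of the properties `Q c` is true at each point, then one of them is true at all points. -/
theorem bounded_of_forall [IsNoetherianRing R] (hQ : ∀ c, Elementary (Q c))
    (hmono : ∀ c c', c ≤ c' → ∀ (K : Type) [Field K] (φ : R →+* K), Q c K φ → Q c' K φ)
    (h : ∀ p : PrimeSpectrum R, ∃ c, p ∈ Locus (Q c)) :
    ∃ c : ℕ, ∀ p : PrimeSpectrum R, p ∈ Locus (Q c) := by
  have key : ∀ I : Ideal R, ∃ c : ℕ, ∀ p : PrimeSpectrum R, I ≤ p.asIdeal → p ∈ Locus (Q c) := by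
    intro I
    refine IsNoetherian.induction (R := R) (M := R)
      (P := fun I : Ideal R => ∃ c : ℕ, ∀ p : PrimeSpectrum R, I ≤ p.asIdeal →
        p ∈ Locus (Q c)) ?_ I
    intro (I : Ideal R) ih
    have hbig : ∀ h : R, h ∉ I → I < I ⊔ Ideal.span {h} := by
      intro h hh
      refine lt_of_le_of_ne le_sup_left fun heq => hh ?_
      rw [heq]
      exact Ideal.mem_sup_right (Ideal.mem_span_singleton_self h)
    have hmem : ∀ (h : R) (p : PrimeSpectrum R), I ≤ p.asIdeal → h ∈ p.asIdeal →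
        I ⊔ Ideal.span {h} ≤ p.asIdeal := fun h p h1 h2 =>
      sup_le h1 ((Ideal.span_singleton_le_iff_mem _).mpr h2)
    by_cases htop : I = ⊤
    · refine ⟨0, fun p hp => ?_⟩
      rw [htop, top_le_iff] at hp
      exact absurd hp p.isPrime.ne_top
    by_cases hprime : I.IsPrime
    · let P : PrimeSpectrum R := ⟨I, hprime⟩
      obtain ⟨c, hc⟩ := h P
      obtain ⟨g, hg, hgq⟩ := ((hQ c).generic P).1 hc
      obtain ⟨c', hcN⟩ := ih _ (hbig g hg)
      refine ⟨max c c', fun p hp => ?_⟩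
      by_cases hgp : g ∈ p.asIdeal
      · exact hmono _ _ (le_max_right _ _) _ _ (hcN p (hmem g p hp hgp))
      · exact hmono _ _ (le_max_left _ _) _ _ (hgq p hp hgp)
    · rw [Ideal.isPrime_iff] at hprime
      push Not at hprime
      obtain ⟨a, b, hab, ha, hb⟩ := hprime htop
      obtain ⟨c, hcN⟩ := ih _ (hbig a ha)
      obtain ⟨c', hcN'⟩ := ih _ (hbig b hb)
      refine ⟨max c c', fun p hp => ?_⟩
      rcases p.isPrime.mem_or_mem (hp hab) with h2 | h2
      · exact hmono _ _ (le_max_left _ _) _ _ (hcN p (hmem a p hp h2))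
      · exact hmono _ _ (le_max_right _ _) _ _ (hcN' p (hmem b p hp h2))
  obtain ⟨c, hcN⟩ := key ⊥
  exact ⟨c, fun p => hcN p bot_le⟩

/-- A countable algebraically closed field for a prime ideal of a countable ring. -/
theorem exists_countable_field [Countable R] (p : PrimeSpectrum R) : ∃ (k : Type) (_ : Field k)
    (_ : IsAlgClosed k) (_ : Countable k) (κ : R →+* k), RingHom.ker κ = p.asIdeal := by
  let D := R ⧸ p.asIdeal
  have hDc : Countable D := Ideal.Quotient.mk_surjective.countable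
  have hFc : Countable (FractionRing D) := by
    have h1 := Cardinal.mk_fractionRing D
    rw [← Cardinal.mk_le_aleph0_iff, h1]
    exact Cardinal.mk_le_aleph0
  have hAc : Countable (AlgebraicClosure (FractionRing D)) := by
    have := Algebra.IsAlgebraic.cardinalMk_le_max (FractionRing D)
      (AlgebraicClosure (FractionRing D))
    rw [← Cardinal.mk_le_aleph0_iff]
    refine this.trans ?_
    simp
  refine ⟨AlgebraicClosure (FractionRing D), inferInstance, inferInstance, hAc,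
    (algebraMap (FractionRing D) (AlgebraicClosure (FractionRing D))).comp
      ((algebraMap D (FractionRing D)).comp (Ideal.Quotient.mk p.asIdeal)), ?_⟩
  ext a
  rw [RingHom.mem_ker, RingHom.comp_apply, map_eq_zero, RingHom.comp_apply]
  rw [(injective_iff_map_eq_zero' _).mp (IsFractionRing.injective D (FractionRing D)),
    Ideal.Quotient.eq_zero_iff_mem]

/-- The field of complex numbers is an ultrapower, over `R`, of a countable algebraically closed
field. -/
theorem exists_power_of_ker [Countable R] (t : R →+* ℂ) : ∃ (k : Type) (_ : Field k)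
    (_ : IsAlgClosed k) (κ : R →+* k) (π : (ℕ → k) →+* ℂ), RingHom.ker κ = RingHom.ker t ∧
      IsUltra (hyperfilter ℕ) π ∧ π.comp (RingHom.pi fun _ => κ) = t := by
  have hprime : (RingHom.ker t).IsPrime := RingHom.ker_isPrime t
  obtain ⟨k, _, _, _, κ, hκ⟩ := exists_countable_field ⟨RingHom.ker t, hprime⟩
  have hκ' : RingHom.ker κ = RingHom.ker t := hκ
  have hDc : Countable (R ⧸ RingHom.ker t) := Ideal.Quotient.mk_surjective.countable
  let κ' : R ⧸ RingHom.ker t →+* k :=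
    (RingHom.kerLift κ).comp (Ideal.quotEquivOfEq hκ'.symm : _ →+* _)
  have hκinj : Function.Injective κ' :=
    (RingHom.kerLift_injective κ).comp (Ideal.quotEquivOfEq hκ'.symm).injective
  obtain ⟨π, h1, h2, h3⟩ := exists_hom_over (K := fun _ : ℕ => k) (RingHom.kerLift t)
    (RingHom.kerLift_injective t) (RingHom.pi fun _ => κ') (fun x hx =>
      Eventually.of_forall fun j hj => hx (hκinj (by rw [map_zero]; exact hj)))
  refine ⟨k, inferInstance, inferInstance, κ, π, hκ', ⟨h1, h2⟩, ?_⟩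
  ext a
  have h4 := RingHom.congr_fun h3 (Ideal.Quotient.mk _ a)
  have h5 : RingHom.kerLift t (Ideal.Quotient.mk _ a) = t a := RingHom.kerLift_mk t a
  rw [h5] at h4
  exact h4

/-- A point of characteristic zero of the spectrum of a countable ring is given by a homomorphism to
the field of complex numbers. -/
theorem exists_complex [Countable R] (p : PrimeSpectrum R)
    (hp : ∀ N : ℕ, N ≠ 0 → (N : R) ∉ p.asIdeal) : ∃ t : R →+* ℂ, RingHom.ker t = p.asIdeal := by
  obtain ⟨k, _, _, _, κ, hκ⟩ := exists_countable_field p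
  have h0 : ∀ x : ℤ, x ≠ 0 → (Int.castRingHom k) x ≠ 0 := by
    intro x hx h1
    apply hp x.natAbs (Int.natAbs_ne_zero.mpr hx)
    rw [← hκ, RingHom.mem_ker, map_natCast]
    have h2 : ((x : ℤ) : k) = 0 := h1
    rcases Int.natAbs_eq x with h3 | h3
    · rw [h3, Int.cast_natCast] at h2
      exact h2
    · rw [h3, Int.cast_neg, Int.cast_natCast, neg_eq_zero] at h2
      exact h2
  obtain ⟨π, h1, h2, h3⟩ := exists_hom_over (K := fun _ : ℕ => k) (Int.castRingHom ℂ)
    Int.cast_injective (RingHom.pi fun _ => Int.castRingHom k) (fun x hx =>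
      Eventually.of_forall fun j => h0 x hx)
  refine ⟨π.comp (RingHom.pi fun _ => κ), ?_⟩
  ext a
  rw [RingHom.mem_ker, RingHom.comp_apply, h2, ← hκ, RingHom.mem_ker]
  constructor
  · intro h
    obtain ⟨j, hj⟩ := h.exists
    exact hj
  · intro h
    exact Eventually.of_forall fun j => h

/-- Points of the closure of a given point of characteristic zero over algebraic closures of finite
fields. -/
theorem exists_closed [Algebra.FiniteType ℤ R] (p : PrimeSpectrum R)
    (hp : ∀ N : ℕ, N ≠ 0 → (N : R) ∉ p.asIdeal) {h : R} (hh : h ∉ p.asIdeal) :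
    ∃ ℓ₀ : ℕ, ∀ (ℓ : ℕ) [Fact ℓ.Prime], ℓ₀ ≤ ℓ → ∃ φ : R →+* AlgebraicClosure (ZMod ℓ), φ h ≠ 0 ∧
      p.asIdeal ≤ RingHom.ker φ := by
  have hRc : Countable R := countable_of_finiteType
  obtain ⟨t, ht⟩ := exists_complex p hp
  have hft := Algebra.FiniteType.of_surjective (Ideal.Quotient.mk (RingHom.ker t)).toIntAlgHom
    Ideal.Quotient.mk_surjective
  have h1 : RingHom.kerLift t (Ideal.Quotient.mk _ h) ≠ 0 := by
    have h2 : RingHom.kerLift t (Ideal.Quotient.mk _ h) = t h := RingHom.kerLift_mk t h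
    rw [h2, Ne, ← RingHom.mem_ker, ht]
    exact hh
  obtain ⟨ℓ₀, hℓ⟩ := exists_reduction (ι := RingHom.kerLift t) (h := Ideal.Quotient.mk _ h) h1
  refine ⟨ℓ₀, fun ℓ _ hle => ?_⟩
  obtain ⟨φ, hφ⟩ := hℓ ℓ hle
  refine ⟨φ.comp (Ideal.Quotient.mk _), hφ, fun a ha => ?_⟩
  rw [← ht] at ha
  rw [RingHom.mem_ker, RingHom.comp_apply, Ideal.Quotient.eq_zero_iff_mem.mpr ha, map_zero]

theorem cast_notMem {K : Type} [Field K] [CharZero K] (t : R →+* K) {p : PrimeSpectrum R}
    (hp : RingHom.ker t = p.asIdeal) (N : ℕ) (hN : N ≠ 0) : (N : R) ∉ p.asIdeal := by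
  rw [← hp, RingHom.mem_ker, map_natCast]
  exact Nat.cast_ne_zero.mpr hN

/-- **Uniformity of elementary properties over finitely generated rings.** -/
theorem uniform_tfae [Algebra.FiniteType ℤ R] (hQ : ∀ c, Elementary (Q c))
    (hmono : ∀ c c', c ≤ c' → ∀ (K : Type) [Field K] (φ : R →+* K), Q c K φ → Q c' K φ) :
    [∀ t : R →+* ℂ, ∃ c, Q c ℂ t,
     ∃ c : ℕ, ∀ t : R →+* ℂ, Q c ℂ t,
     ∃ c N : ℕ, N ≠ 0 ∧ ∀ (K : Type) [Field K] [IsAlgClosed K] (t : R →+* K), (N : K) ≠ 0 →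
       Q c K t,
     ∃ c ℓ₀ : ℕ, ∀ (ℓ : ℕ) [Fact ℓ.Prime], ℓ₀ ≤ ℓ →
       ∀ t : R →+* AlgebraicClosure (ZMod ℓ), Q c _ t,
     ∃ c : ℕ, ∀ ℓ₀ : ℕ, ∃ (ℓ : ℕ) (_ : Fact ℓ.Prime), ℓ₀ ≤ ℓ ∧
       ∀ t : R →+* AlgebraicClosure (ZMod ℓ), Q c _ t].TFAE := by
  have hRc : Countable R := countable_of_finiteType
  have hN : IsNoetherianRing R := Algebra.FiniteType.isNoetherianRing ℤ R
  tfae_have 1 → 3 := by
    intro h
    obtain ⟨c, N, hN0, hc⟩ := uniform_of_forall hQ hmono (fun p hp => by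
      obtain ⟨t, ht⟩ := exists_complex p hp
      obtain ⟨c, hc⟩ := h t
      exact ⟨c, ((hQ c).mem_locus ht).mp hc⟩)
    refine ⟨c, N, hN0, fun K _ _ t htN => ?_⟩
    have hprime : (RingHom.ker t).IsPrime := RingHom.ker_isPrime t
    refine ((hQ c).mem_locus (p := ⟨RingHom.ker t, hprime⟩) rfl).mpr (hc _ ?_)
    intro h1
    have h2 : t (N : R) = 0 := h1
    rw [map_natCast] at h2
    exact htN h2
  tfae_have 3 → 4 := by
    rintro ⟨c, N, hN0, hc⟩
    refine ⟨c, N + 1, fun ℓ hℓ hle t => hc _ t ?_⟩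
    intro h0
    rw [CharP.cast_eq_zero_iff (AlgebraicClosure (ZMod ℓ)) ℓ] at h0
    have h3 := Nat.le_of_dvd (Nat.pos_of_ne_zero hN0) h0
    omega
  tfae_have 4 → 5 := by
    rintro ⟨c, ℓ₀, hc⟩
    refine ⟨c, fun ℓ₁ => ?_⟩
    obtain ⟨ℓ, hle, hℓ⟩ := Nat.exists_infinite_primes (max ℓ₀ ℓ₁)
    have hf : Fact ℓ.Prime := ⟨hℓ⟩
    exact ⟨ℓ, hf, (le_max_right _ _).trans hle, hc ℓ ((le_max_left _ _).trans hle)⟩
  tfae_have 5 → 2 := by
    rintro ⟨c, hc⟩
    refine ⟨c, fun t => ?_⟩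
    have hprime : (RingHom.ker t).IsPrime := RingHom.ker_isPrime t
    let p : PrimeSpectrum R := ⟨RingHom.ker t, hprime⟩
    refine ((hQ c).mem_locus (p := p) rfl).mpr ?_
    by_contra hcon
    obtain ⟨h, hh, hq⟩ := ((hQ c).generic p).2 hcon
    obtain ⟨ℓ₀, hℓ⟩ := exists_closed p (cast_notMem t rfl) hh
    obtain ⟨ℓ, hf, hle, hcℓ⟩ := hc ℓ₀
    obtain ⟨φ, hφ, hφp⟩ := hℓ ℓ hle
    have hprime' : (RingHom.ker φ).IsPrime := RingHom.ker_isPrime φ
    exact hq ⟨RingHom.ker φ, hprime'⟩ hφp (fun h1 => hφ h1)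
      (((hQ c).mem_locus (p := ⟨RingHom.ker φ, hprime'⟩) rfl).mp (hcℓ φ))
  tfae_have 2 → 1 := fun ⟨c, hc⟩ t => ⟨c, hc t⟩
  tfae_finish

end Pool.Agent.H837.SP
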